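import Mathlib

set_option autoImplicit false

/-!
# Arithmetic lemmas: separation of shifted polynomials, congruences
-/

namespace Pool.Agent.TH956

open Finset Polynomial

/-- Two shifts of a polynomial without common complex root have bounded common divisors. -/
theorem sep_of_roots (f : ℤ[X]) (hd : f.natDegree ≠ 0)
    (h : ∀ z z' : ℤ, z ≠ z' → ∀ a : ℂ, aeval (a + z) f ≠ 0 ∨ aeval (a + z') f ≠ 0)
    (z z' : ℤ) (hz : z ≠ z') : ∃ ρ : ℤ, ρ ≠ 0 ∧ ∀ t g : ℤ, g ∣ f.eval (t + z) →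
      g ∣ f.eval (t + z') → g ∣ ρ := by
  set F : ℤ[X] := taylor z f with hF
  set G : ℤ[X] := taylor z' f with hG
  have hFd : F.natDegree = f.natDegree := by rw [hF, natDegree_taylor]
  have hGd : G.natDegree = f.natDegree := by rw [hG, natDegree_taylor]
  obtain ⟨p, q, -, -, hpq⟩ := exists_mul_add_mul_eq_C_resultant F G le_rfl le_rfl
    (Or.inl (by rw [hFd]; exact hd))
  refine ⟨F.resultant G, ?_, fun t g h1 h2 => ?_⟩
  · intro h0
    set ι := Int.castRingHom ℂ with hι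
    have hinj : Function.Injective ι := Int.cast_injective
    have h1 : (F.map ι).resultant (G.map ι) = 0 := by
      rw [natDegree_map_eq_of_injective hinj, natDegree_map_eq_of_injective hinj,
        resultant_map_map, h0, map_zero]
    rw [resultant_eq_zero_iff] at h1
    apply h1.2
    rw [isCoprime_iff_aeval_ne_zero_of_isAlgClosed (k := ℂ) ℂ]
    intro a
    have h2 : ∀ w : ℤ, aeval a ((taylor w f).map ι) = aeval (a + w) f := by
      intro w
      rw [coe_aeval_eq_eval, eval_map, taylor_apply, eval₂_comp, aeval_def]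
      rw [eval₂_add, eval₂_X, eval₂_C]
      rfl
    rw [hF, hG, h2, h2]
    exact h z z' hz a
  · have h3 := congrArg (eval t) hpq
    rw [eval_add, eval_mul, eval_mul, eval_C] at h3
    rw [← h3]
    refine dvd_add (dvd_mul_of_dvd_left ?_ _) (dvd_mul_of_dvd_left ?_ _)
    · rwa [hF, taylor_eval]
    · rwa [hG, taylor_eval]

/-- A bound for the complex roots. -/
theorem exists_root_bound (Q : ℤ[X]) (hQ : Q ≠ 0) :
    ∃ R : ℕ, ∀ x : ℂ, aeval x Q = 0 → ‖x‖ ≤ R := by
  have hfin : (Q.rootSet ℂ).Finite := rootSet_finite Q ℂ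
  obtain ⟨R, hR⟩ := (hfin.image (fun x => ‖x‖)).bddAbove
  refine ⟨⌈R⌉₊, fun x hx => ?_⟩
  have h1 : x ∈ Q.rootSet ℂ := by
    rw [mem_rootSet]
    exact ⟨hQ, hx⟩
  exact (hR ⟨x, h1, rfl⟩).trans (Nat.le_ceil R)

/-- The part of `N` prime to `Ω`. -/
theorem exists_cop_part (Ω : ℤ) : ∀ (n : ℕ) (N : ℤ), N ≠ 0 → N.natAbs ≤ n →
    ∃ L : ℤ, L ≠ 0 ∧ IsCoprime L Ω ∧ ∀ g : ℤ, IsCoprime g Ω → g ∣ N → g ∣ L := by
  intro n
  induction n with
  | zero => intro N hN hn; omega
  | succ n ih =>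
    intro N hN hn
    by_cases h : IsCoprime N Ω
    · exact ⟨N, hN, h, fun g _ hg => hg⟩
    · obtain ⟨d, hd⟩ : ∃ d : ℤ, d = (Int.gcd N Ω : ℤ) := ⟨_, rfl⟩
      obtain ⟨N', hN'⟩ : d ∣ N := hd ▸ Int.gcd_dvd_left _ _
      have hdΩ : d ∣ Ω := hd ▸ Int.gcd_dvd_right _ _
      have hd1 : Int.gcd N Ω ≠ 1 := fun h' => h (Int.isCoprime_iff_gcd_eq_one.2 h')
      have hd0 : Int.gcd N Ω ≠ 0 := by
        rw [Ne, Int.gcd_eq_zero_iff]
        exact fun h' => hN h'.1
      have hN'0 : N' ≠ 0 := by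
        rintro rfl
        rw [mul_zero] at hN'
        exact hN hN'
      have habs : N.natAbs = Int.gcd N Ω * N'.natAbs := by
        conv_lhs => rw [hN']
        rw [Int.natAbs_mul, hd, Int.natAbs_natCast]
      have hlt : N'.natAbs ≤ n := by
        have h2 : 2 ≤ Int.gcd N Ω := by omega
        have h3 : 1 ≤ N'.natAbs := Int.natAbs_pos.2 hN'0
        nlinarith
      obtain ⟨L, h1, h2, h3⟩ := ih N' hN'0 hlt
      refine ⟨L, h1, h2, fun g hg hgN => h3 g hg ?_⟩
      have h4 : IsCoprime g d := hg.of_isCoprime_of_dvd_right hdΩ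
      rw [hN'] at hgN
      exact h4.dvd_of_dvd_mul_left hgN

/-- Pairs of congruences. -/
theorem crt_two {a b : ℤ} (h : IsCoprime a b) (x y : ℤ) : ∃ v : ℤ, a ∣ v - x ∧ b ∣ v - y := by
  obtain ⟨u, w, huw⟩ := h
  refine ⟨x * (w * b) + y * (u * a), ⟨(y - x) * u, ?_⟩, ⟨(x - y) * w, ?_⟩⟩
  · linear_combination x * huw
  · linear_combination y * huw

/-- The choice of a generator. -/
theorem exists_gen (Ω : ℤ) (hΩ : Ω ≠ 0) (θ N b : ℤ) (hN : N ≠ 0) :
    ∃ v : ℤ, Ω ∣ v - θ ∧ (∀ g : ℤ, IsCoprime g Ω → g ∣ N → g ∣ v) ∧ b < v := by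
  obtain ⟨L, h1, h2, h3⟩ := exists_cop_part Ω _ N hN le_rfl
  obtain ⟨v, hv1, hv2⟩ := crt_two h2.symm θ 0
  rw [sub_zero] at hv2
  have h4 : 1 ≤ |Ω * L| := Int.one_le_abs (mul_ne_zero hΩ h1)
  refine ⟨v + (|v| + |b| + 1) * |Ω * L|, ?_, ?_, ?_⟩
  · have h5 : Ω ∣ |Ω * L| := (dvd_abs _ _).2 (dvd_mul_right _ _)
    have h6 : v + (|v| + |b| + 1) * |Ω * L| - θ = (v - θ) + (|v| + |b| + 1) * |Ω * L| := by ring
    rw [h6]
    exact dvd_add hv1 (dvd_mul_of_dvd_right h5 _)
  · intro g hg hgN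
    have h5 : L ∣ |Ω * L| := (dvd_abs _ _).2 (dvd_mul_left _ _)
    exact dvd_add ((h3 g hg hgN).trans hv2) (dvd_mul_of_dvd_right ((h3 g hg hgN).trans h5) _)
  · have h5 : |v| + |b| + 1 ≤ (|v| + |b| + 1) * |Ω * L| :=
      le_mul_of_one_le_right (by positivity) h4
    have h6 := neg_abs_le v
    have h7 := le_abs_self b
    linarith

theorem nat_pow_dvd_lcm {p : ℕ} (hp : p.Prime) {k a b : ℕ} (h : p ^ k ∣ Nat.lcm a b) :
    p ^ k ∣ a ∨ p ^ k ∣ b := by
  rcases eq_or_ne a 0 with rfl | ha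
  · left; exact dvd_zero _
  rcases eq_or_ne b 0 with rfl | hb
  · right; exact dvd_zero _
  obtain ⟨i, a', ha', rfl⟩ := Nat.exists_eq_pow_mul_and_not_dvd ha p hp.ne_one
  obtain ⟨j, b', hb', rfl⟩ := Nat.exists_eq_pow_mul_and_not_dvd hb p hp.ne_one
  have key : ∀ n, i ≤ n → j ≤ n → k ≤ n := by
    intro n hi hj
    have h1 : Nat.lcm (p ^ i * a') (p ^ j * b') ∣ p ^ n * (a' * b') :=
      Nat.lcm_dvd (Nat.mul_dvd_mul (pow_dvd_pow p hi) (dvd_mul_right _ _))
        (Nat.mul_dvd_mul (pow_dvd_pow p hj) (dvd_mul_left _ _))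
    have h2 := h.trans h1
    have h3 : Nat.Coprime (p ^ k) (a' * b') := by
      apply Nat.Coprime.pow_left
      rw [hp.coprime_iff_not_dvd, hp.dvd_mul]
      tauto
    exact (Nat.pow_dvd_pow_iff_le_right hp.one_lt).1 (h3.dvd_of_dvd_mul_right h2)
  rcases le_total i j with hij | hij
  · right
    exact dvd_mul_of_dvd_left (pow_dvd_pow p (key j hij le_rfl)) _
  · left
    exact dvd_mul_of_dvd_left (pow_dvd_pow p (key i le_rfl hij)) _

theorem pow_dvd_lcm {p : ℕ} (hp : p.Prime) {k : ℕ} {a b : ℤ}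
    (h : ((p ^ k : ℕ) : ℤ) ∣ GCDMonoid.lcm a b) :
    ((p ^ k : ℕ) : ℤ) ∣ a ∨ ((p ^ k : ℕ) : ℤ) ∣ b := by
  rw [← Int.coe_lcm, Int.natCast_dvd_natCast] at h
  rcases nat_pow_dvd_lcm hp h with h | h
  · left; exact Int.natCast_dvd.2 h
  · right; exact Int.natCast_dvd.2 h

/-- Congruences which are consistent in pairs. -/
theorem crt_finset {ι : Type} (s : Finset ι) (m b : ι → ℤ)
    (h : ∀ i ∈ s, ∀ j ∈ s, ∀ g : ℤ, g ∣ m i → g ∣ m j → g ∣ b i - b j) :
    ∃ w : ℤ, ∀ i ∈ s, m i ∣ w + b i := by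
  classical
  induction s using Finset.induction_on with
  | empty => exact ⟨0, by simp⟩
  | insert j s hj ih =>
    obtain ⟨w, hw⟩ := ih fun i hi k hk => h i (mem_insert_of_mem hi) k (mem_insert_of_mem hk)
    -- the least common multiple of the old moduli
    set L : ℤ := s.lcm m with hL
    have hmL : ∀ i ∈ s, m i ∣ L := fun i hi => dvd_lcm hi
    -- the greatest common divisor divides the difference
    have hg : (Int.gcd L (m j) : ℤ) ∣ w + b j := by
      have key : ∀ t : Finset ι, t ⊆ s → ∀ g : ℤ, g ∣ t.lcm m → g ∣ m j → g ∣ w + b j := by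
        intro t
        induction t using Finset.induction_on with
        | empty =>
          intro _ g hg _
          rw [lcm_empty] at hg
          exact hg.trans (one_dvd _)
        | insert i t hi iht =>
          intro hts g hg hgj
          rw [lcm_insert] at hg
          rw [← Int.natAbs_dvd_natAbs, Nat.dvd_iff_prime_pow_dvd_dvd]
          intro p k hp hpk
          have hpg : ((p ^ k : ℕ) : ℤ) ∣ g := by
            rw [← Int.natAbs_dvd_natAbs, Int.natAbs_natCast]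
            exact hpk
          have h1 : ((p ^ k : ℕ) : ℤ) ∣ m i ∨ ((p ^ k : ℕ) : ℤ) ∣ t.lcm m := by
            exact pow_dvd_lcm hp (hpg.trans hg)
          have h3 : ((p ^ k : ℕ) : ℤ) ∣ w + b j := by
            rcases h1 with h1 | h1
            · have his : i ∈ s := hts (mem_insert_self _ _)
              have h4 := h i (mem_insert_of_mem his) j (mem_insert_self _ _) _ h1 (hpg.trans hgj)
              have h5 := h1.trans (hw i his)
              have h6 : w + b j = (w + b i) - (b i - b j) := by ring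
              rw [h6]
              exact dvd_sub h5 h4
            · exact iht (fun x hx => hts (mem_insert_of_mem hx)) _ h1 (hpg.trans hgj)
          rw [← Int.natAbs_dvd_natAbs, Int.natAbs_natCast] at h3
          exact h3
      exact key s (Subset.refl _) _ (Int.gcd_dvd_left _ _) (Int.gcd_dvd_right _ _)
    obtain ⟨k, hk⟩ := hg
    have hbez := Int.gcd_eq_gcd_ab L (m j)
    set u := Int.gcdA L (m j)
    set v := Int.gcdB L (m j)
    refine ⟨w - L * (u * k), fun i hi => ?_⟩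
    rcases mem_insert.1 hi with rfl | hi
    · refine ⟨v * k, ?_⟩
      have h1 : w - L * (u * k) + b i = (w + b i) - L * (u * k) := by ring
      rw [h1, hk, hbez]
      ring
    · have h1 : w - L * (u * k) + b i = (w + b i) - L * (u * k) := by ring
      rw [h1]
      exact dvd_sub (hw i hi) (dvd_mul_of_dvd_left (hmL i hi) _)

/-- A nonzero polynomial of small degree has a non-root modulo `p`. -/
theorem exists_nonroot {p : ℕ} (hp : p.Prime) (H : ℤ[X]) (hd : H.natDegree < p)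
    (hH : H.map (Int.castRingHom (ZMod p)) ≠ 0) : ∃ x : ℤ, ¬ (p : ℤ) ∣ H.eval x := by
  have := Fact.mk hp
  by_contra hcon
  push Not at hcon
  apply hH
  apply Polynomial.eq_zero_of_natDegree_lt_card_of_eval_eq_zero' _ (univ : Finset (ZMod p))
  · intro x _
    obtain ⟨y, rfl⟩ := ZMod.intCast_surjective x
    have h1 := hcon y
    rw [← ZMod.intCast_zmod_eq_zero_iff_dvd] at h1
    have h2 : eval ((y : ℤ) : ZMod p) (H.map (Int.castRingHom (ZMod p))) =
      ((H.eval y : ℤ) : ZMod p) := by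
      rw [eval_map]
      exact eval₂_at_apply (Int.castRingHom (ZMod p)) y
    rw [h2, h1]
  · rw [card_univ, ZMod.card]
    exact (natDegree_map_le).trans_lt hd

/-- The choice of the residue of the generators. -/
theorem exists_theta (N : ℤ) (H : ℤ[X]) (s : Finset ℕ) (hs : ∀ p ∈ s, p.Prime)
    (hN : ∀ p ∈ s, ¬ (p : ℤ) ∣ N) (hd : ∀ p ∈ s, H.natDegree < p)
    (hH : ∀ p ∈ s, H.map (Int.castRingHom (ZMod p)) ≠ 0) :
    ∃ θ : ℤ, N ∣ θ - 1 ∧ ∀ p ∈ s, ¬ (p : ℤ) ∣ H.eval θ := by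
  classical
  suffices h : ∃ θ : ℤ, N ∣ θ - 1 ∧ ∀ p ∈ s, ¬ (p : ℤ) ∣ H.eval θ from h
  induction s using Finset.induction_on with
  | empty => exact ⟨1, by simp, by simp⟩
  | insert p s hps ih =>
    obtain ⟨θ, h1, h2⟩ := ih (fun q hq => hs q (mem_insert_of_mem hq))
      (fun q hq => hN q (mem_insert_of_mem hq)) (fun q hq => hd q (mem_insert_of_mem hq))
      (fun q hq => hH q (mem_insert_of_mem hq))
    have hp := hs p (mem_insert_self _ _)
    obtain ⟨x, hx⟩ := exists_nonroot hp H (hd p (mem_insert_self _ _)) (hH p (mem_insert_self _ _))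
    have hcop : IsCoprime (N * ∏ q ∈ s, (q : ℤ)) (p : ℤ) := by
      have hpi := Nat.prime_iff_prime_int.1 hp
      refine ((hpi.irreducible.coprime_iff_not_dvd).2 fun h => ?_).symm
      rcases hpi.dvd_or_dvd h with h | h
      · exact hN p (mem_insert_self _ _) h
      · rw [hpi.dvd_finsetProd_iff] at h
        obtain ⟨q, hq, h⟩ := h
        have h3 : p ∣ q := by exact_mod_cast h
        rw [Nat.prime_dvd_prime_iff_eq hp (hs q (mem_insert_of_mem hq))] at h3
        exact hps (h3 ▸ hq)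
    obtain ⟨v, hv1, hv2⟩ := crt_two hcop θ x
    refine ⟨v, ?_, fun q hq => ?_⟩
    · have h3 : v - 1 = (v - θ) + (θ - 1) := by ring
      rw [h3]
      exact dvd_add ((dvd_mul_right _ _).trans hv1) h1
    · rcases mem_insert.1 hq with rfl | hq
      · intro h3
        apply hx
        have h4 : (q : ℤ) ∣ H.eval v - H.eval x := hv2.trans (sub_dvd_eval_sub _ _ _)
        exact (dvd_sub_right h3).1 h4
      · intro h3
        apply h2 q hq
        have h5 : (q : ℤ) ∣ N * ∏ q ∈ s, (q : ℤ) := dvd_mul_of_dvd_right (dvd_prod_of_mem _ hq) _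
        have h4 : (q : ℤ) ∣ H.eval v - H.eval θ := (h5.trans hv1).trans (sub_dvd_eval_sub _ _ _)
        exact (dvd_sub_right h3).1 h4

end Pool.Agent.TH956
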