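import Pool.Agent.TH956.Tree
import Pool.Agent.TH956.Arith

set_option autoImplicit false

/-!
# Sequences of generators and the descent on the top generator
-/

namespace Pool.Agent.TH956

open Finset Polynomial

/-- The subset sums of the first `n` members of a sequence. -/
def ssums (y : ℕ → ℤ) (n : ℕ) : Finset ℤ := (range n).powerset.image (fun α => ∑ i ∈ α, y i)

theorem mem_ssums {y : ℕ → ℤ} {n : ℕ} {α : Finset ℕ} (h : α ⊆ range n) :
    ∑ i ∈ α, y i ∈ ssums y n :=
  mem_image.2 ⟨α, mem_powerset.2 h, rfl⟩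

/-- The recursive construction of the subset sums. -/
noncomputable def seqF (g : Finset ℤ → ℤ) : ℕ → Finset ℤ
  | 0 => {0}
  | n + 1 => seqF g n ∪ (seqF g n).image (fun s => g (seqF g n) + s)

theorem ssums_eq (g : Finset ℤ → ℤ) (n : ℕ) : ssums (fun n => g (seqF g n)) n = seqF g n := by
  induction n with
  | zero => simp [ssums, seqF]
  | succ n ih =>
    have h1 : ssums (fun n => g (seqF g n)) (n + 1) = ssums (fun n => g (seqF g n)) n ∪
        (ssums (fun n => g (seqF g n)) n).image (fun s => g (seqF g n) + s) := by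
      unfold ssums
      rw [range_add_one, powerset_insert, image_union, image_image, image_image]
      congr 1
      apply image_congr
      intro α hα
      have h2 : n ∉ α := fun h => by
        have h3 := mem_powerset.1 (mem_coe.1 hα) h
        simp at h3
      simp only [Function.comp]
      rw [sum_insert h2]
    rw [h1, ih, seqF]

/-- Sequences in which each member is chosen depending on the subset sums of the previous ones. -/
theorem exists_seq (R : Finset ℤ → ℤ → Prop) (h : ∀ F, ∃ v, R F v) :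
    ∃ y : ℕ → ℤ, ∀ n, R (ssums y n) (y n) := by
  choose g hg using h
  refine ⟨fun n => g (seqF g n), fun n => ?_⟩
  rw [ssums_eq]
  exact hg _

/-- Uniqueness of sums. -/
theorem sums_unique {t : ℕ → ℤ} {H : Set ℤ}
    (h : ∀ n, ∀ s ∈ ssums t n, ∀ s' ∈ ssums t n, ∀ η ∈ H, ∀ η' ∈ H, s + η - (s' + η') < t n) :
    ∀ n, ∀ β ⊆ range n, ∀ β' ⊆ range n, ∀ η ∈ H, ∀ η' ∈ H,
      ∑ i ∈ β, t i + η = ∑ i ∈ β', t i + η' → β = β' := by
  intro n
  induction n with
  | zero =>
    intro β hβ β' hβ' _ _ _ _ _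
    rw [range_zero, subset_empty] at hβ hβ'
    rw [hβ, hβ']
  | succ n ih =>
    intro β hβ β' hβ' η hη η' hη' heq
    have herase : ∀ γ : Finset ℕ, γ ⊆ range (n + 1) → γ.erase n ⊆ range n := by
      intro γ hγ k hk
      rw [mem_erase] at hk
      have := mem_range.1 (hγ hk.2)
      rw [mem_range]
      omega
    have hsub : ∀ γ : Finset ℕ, γ ⊆ range (n + 1) → n ∉ γ → γ ⊆ range n := by
      intro γ hγ hn
      rw [← erase_eq_of_notMem hn]
      exact herase γ hγ
    by_cases hn : n ∈ β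
    · have h1 := add_sum_erase β t hn
      by_cases hn' : n ∈ β'
      · have h1' := add_sum_erase β' t hn'
        have h2 := ih _ (herase β hβ) _ (herase β' hβ') η hη η' hη' (by linarith)
        rw [← insert_erase hn, ← insert_erase hn', h2]
      · exfalso
        have h3 := h n _ (mem_ssums (hsub β' hβ' hn')) _ (mem_ssums (herase β hβ)) η' hη' η hη
        linarith
    · by_cases hn' : n ∈ β'
      · exfalso
        have h1' := add_sum_erase β' t hn'
        have h3 := h n _ (mem_ssums (hsub β hβ hn)) _ (mem_ssums (herase β' hβ')) η hη η' hη'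
        linarith
      · exact ih _ (hsub β hβ hn) _ (hsub β' hβ' hn') η hη η' hη' heq

theorem Agree.of_erase {m n : ℕ} {β β' : Finset ℕ} (hβ' : β' ⊆ range n)
    (h : Agree m (β.erase n) β') : Agree m β β' := by
  have hm := mem_range.1 (hβ' h.2.1)
  refine ⟨mem_of_mem_erase h.1, h.2.1, fun k hk => ?_⟩
  rw [← h.2.2 k hk, mem_erase]
  have : k ≠ n := by omega
  tauto

theorem Agree.of_erase_both {m n : ℕ} {β β' : Finset ℕ} (hβ' : β' ⊆ range (n + 1))
    (h : Agree m (β.erase n) (β'.erase n)) : Agree m β β' := by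
  have h1 := mem_erase.1 h.2.1
  have hm := mem_range.1 (hβ' h1.2)
  refine ⟨mem_of_mem_erase h.1, h1.2, fun k hk => ?_⟩
  have h2 := h.2.2 k hk
  rw [mem_erase, mem_erase] at h2
  have : k ≠ n := by omega
  tauto

theorem Agree.symm {m : ℕ} {β β' : Finset ℕ} (h : Agree m β β') : Agree m β' β :=
  ⟨h.2.1, h.1, fun k hk => (h.2.2 k hk).symm⟩

/-- The descent on the top generator. -/
theorem descent {f : ℤ → ℤ} {Ω : ℤ} {t : ℕ → ℤ} {H : Set ℤ}
    (hf : ∀ g a b : ℤ, g ∣ a - b → g ∣ f a - f b)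
    (h1 : ∀ n, ∀ β ⊆ range n, ∀ η ∈ H, ∀ g : ℤ, IsCoprime g Ω → g ∣ f (∑ i ∈ β, t i + η) →
      g ∣ t n)
    (h2 : ∀ n, ∀ β ⊆ range n, ∀ β' ⊆ range n, ∀ η ∈ H, ∀ η' ∈ H,
      ∑ i ∈ β, t i + η ≠ ∑ i ∈ β', t i + η' → ∀ g : ℤ, IsCoprime g Ω →
      g ∣ f (t n + (∑ i ∈ β, t i + η)) → g ∣ f (t n + (∑ i ∈ β', t i + η')) → g ∣ t n)
    (h3 : ∀ n, ∀ β ⊆ range n, ∀ β' ⊆ range n, ∀ η ∈ H, ∀ η' ∈ H,
      ∑ i ∈ β, t i + η = ∑ i ∈ β', t i + η' → β = β')
    (h4 : ∀ η ∈ H, f η ∣ Ω) :
    ∀ n, ∀ β β' : Finset ℕ, β ⊆ range n → β' ⊆ range n → β.Nonempty → β'.Nonempty →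
      ∀ η ∈ H, ∀ η' ∈ H, ∀ g : ℤ, IsCoprime g Ω → g ∣ f (∑ i ∈ β, t i + η) →
      g ∣ f (∑ i ∈ β', t i + η') → IsUnit g ∨ ∃ m, Agree m β β' ∧ ∀ k, m < k → g ∣ t k := by
  have hunit : ∀ η ∈ H, ∀ g : ℤ, IsCoprime g Ω → g ∣ f η → IsUnit g := by
    intro η hη g hg hgη
    have h5 : IsCoprime g g := hg.of_isCoprime_of_dvd_right (hgη.trans (h4 η hη))
    exact isCoprime_self.1 h5
  have hstep : ∀ (n : ℕ) (β : Finset ℕ), n ∈ β → ∀ η g : ℤ, g ∣ t n →
      g ∣ f (∑ i ∈ β, t i + η) → g ∣ f (∑ i ∈ β.erase n, t i + η) := by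
    intro n β hn η g hgt hg
    have h5 := hf g (∑ i ∈ β, t i + η) (∑ i ∈ β.erase n, t i + η) (by
      rw [← add_sum_erase β t hn]
      have h6 : t n + ∑ i ∈ β.erase n, t i + η - (∑ i ∈ β.erase n, t i + η) = t n := by ring
      rw [h6]
      exact hgt)
    exact (dvd_sub_right hg).1 h5
  have herase : ∀ (n : ℕ) (γ : Finset ℕ), γ ⊆ range (n + 1) → γ.erase n ⊆ range n := by
    intro n γ hγ k hk
    rw [mem_erase] at hk
    have := mem_range.1 (hγ hk.2)
    rw [mem_range]
    omega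
  have hsub : ∀ (n : ℕ) (γ : Finset ℕ), γ ⊆ range (n + 1) → n ∉ γ → γ ⊆ range n := by
    intro n γ hγ hn
    rw [← erase_eq_of_notMem hn]
    exact herase n γ hγ
  intro n
  induction n with
  | zero =>
    intro β β' hβ _ hne
    rw [range_zero, subset_empty] at hβ
    rw [hβ] at hne
    simp at hne
  | succ n ih =>
    intro β β' hβ hβ' hne hne' η hη η' hη' g hg hd hd'
    have herase0 : ∀ (γ : Finset ℕ), ∀ η ∈ H, g ∣ f (∑ i ∈ γ.erase n, t i + η) →
        ¬ (γ.erase n).Nonempty → IsUnit g := by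
      intro γ η hη h5 h6
      rw [not_nonempty_iff_eq_empty] at h6
      rw [h6, sum_empty, zero_add] at h5
      exact hunit η hη g hg h5
    by_cases hn : n ∈ β
    · by_cases hn' : n ∈ β'
      · by_cases heq : ∑ i ∈ β.erase n, t i + η = ∑ i ∈ β'.erase n, t i + η'
        · have h5 := h3 n _ (herase n β hβ) _ (herase n β' hβ') η hη η' hη' heq
          have h6 : β = β' := by rw [← insert_erase hn, ← insert_erase hn', h5]
          subst h6
          exact Or.inr ⟨n, ⟨hn, hn, fun _ _ => Iff.rfl⟩, fun k hk =>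
            h1 k β (hβ.trans (range_subset_range.2 (by omega))) η hη g hg hd⟩
        · have h5 : ∀ (γ : Finset ℕ), n ∈ γ → ∀ η : ℤ,
              ∑ i ∈ γ, t i + η = t n + (∑ i ∈ γ.erase n, t i + η) := by
            intro γ hγ η
            rw [← add_sum_erase γ t hγ]
            ring
          have hgt := h2 n _ (herase n β hβ) _ (herase n β' hβ') η hη η' hη' heq g hg
            (by rw [← h5 β hn]; exact hd) (by rw [← h5 β' hn']; exact hd')
          have h6 := hstep n β hn η g hgt hd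
          have h6' := hstep n β' hn' η' g hgt hd'
          by_cases h7 : (β.erase n).Nonempty
          · by_cases h7' : (β'.erase n).Nonempty
            · rcases ih _ _ (herase n β hβ) (herase n β' hβ') h7 h7' η hη η' hη' g hg h6 h6' with
                h8 | ⟨m, h8, h9⟩
              · exact Or.inl h8
              · exact Or.inr ⟨m, h8.of_erase_both hβ', h9⟩
            · exact Or.inl (herase0 β' η' hη' h6' h7')
          · exact Or.inl (herase0 β η hη h6 h7)
      · have hβ'n := hsub n β' hβ' hn'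
        have hgt := h1 n β' hβ'n η' hη' g hg hd'
        have h6 := hstep n β hn η g hgt hd
        by_cases h7 : (β.erase n).Nonempty
        · rcases ih _ _ (herase n β hβ) hβ'n h7 hne' η hη η' hη' g hg h6 hd' with
            h8 | ⟨m, h8, h9⟩
          · exact Or.inl h8
          · exact Or.inr ⟨m, h8.of_erase hβ'n, h9⟩
        · exact Or.inl (herase0 β η hη h6 h7)
    · have hβn := hsub n β hβ hn
      by_cases hn' : n ∈ β'
      · have hgt := h1 n β hβn η hη g hg hd
        have h6' := hstep n β' hn' η' g hgt hd'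
        by_cases h7' : (β'.erase n).Nonempty
        · rcases ih _ _ hβn (herase n β' hβ') hne h7' η hη η' hη' g hg hd h6' with
            h8 | ⟨m, h8, h9⟩
          · exact Or.inl h8
          · exact Or.inr ⟨m, (h8.symm.of_erase hβn).symm, h9⟩
        · exact Or.inl (herase0 β' η' hη' h6' h7')
      · exact ih _ _ hβn (hsub n β' hβ' hn') hne hne' η hη η' hη' g hg hd hd'

/-- The decomposition of the modulus. -/
theorem decomp (U : ℤ[X]) (l B j : ℕ) (Ω δ : ℤ) (hj : 1 ≤ j) (hjB : j ≤ B)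
    (hδ : ((B.factorial : ℤ)) ^ 2 ∣ δ - j)
    (hp : ∀ p : ℕ, p.Prime → B < p → (p : ℤ) ∣ Ω →
      ¬ (p : ℤ) ∣ δ ^ l * U.eval (|U.eval 0| * (B.factorial : ℤ) ^ (l + 1) * δ)) :
    ∃ m : ℤ, IsCoprime m Ω ∧
      m ∣ δ ^ l * U.eval (|U.eval 0| * (B.factorial : ℤ) ^ (l + 1) * δ) ∧
      ∀ w : ℤ, m ∣ w → δ ^ l * U.eval (|U.eval 0| * (B.factorial : ℤ) ^ (l + 1) * δ) ∣
        |U.eval 0| * (B.factorial : ℤ) ^ (l + 1) * w := by
  obtain ⟨s, hs⟩ := hδ
  obtain ⟨b, hb⟩ : (j : ℤ) ∣ (B.factorial : ℤ) := by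
    exact_mod_cast Nat.dvd_factorial hj hjB
  set F : ℤ := (B.factorial : ℤ) with hF
  set q : ℤ := U.eval 0 with hqdef
  set T : ℤ := |q| * F ^ (l + 1) with hT
  obtain ⟨σ, hσ⟩ : ∃ σ : ℤ, |q| = q * σ := by
    rcases abs_choice q with h | h
    · exact ⟨1, by rw [h]; ring⟩
    · exact ⟨-1, by rw [h]; ring⟩
  obtain ⟨v, hv⟩ : T * δ ∣ U.eval (T * δ) - q := by
    have := sub_dvd_eval_sub (T * δ) 0 U
    rwa [sub_zero] at this
  set δ' : ℤ := 1 + b * F * s with hδ'
  set u : ℤ := 1 + σ * F ^ (l + 1) * δ * v with hu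
  have h1 : δ = j * δ' := by
    rw [hδ']
    linear_combination hs + (F * s) * hb
  have h2 : U.eval (T * δ) = q * u := by
    have h3 : U.eval (T * δ) = q + T * δ * v := by linarith
    rw [h3, hu, hT, hσ]
    ring
  have h3 : δ ^ l * U.eval (T * δ) = ((j : ℤ) ^ l * q) * (δ' ^ l * u) := by
    rw [h2]
    conv_lhs => rw [h1]
    ring_nf
  refine ⟨δ' ^ l * u, ?_, ⟨(j : ℤ) ^ l * q, by rw [h3]; ring⟩, ?_⟩
  · rw [Int.isCoprime_iff_gcd_eq_one]
    by_contra hne
    obtain ⟨p, hpp, hpd⟩ := Nat.exists_prime_and_dvd hne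
    have hpd' : (p : ℤ) ∣ (Int.gcd (δ' ^ l * u) Ω : ℤ) := by exact_mod_cast hpd
    have hp1 := hpd'.trans (Int.gcd_dvd_left _ _)
    have hp2 := hpd'.trans (Int.gcd_dvd_right _ _)
    have hpi := Nat.prime_iff_prime_int.1 hpp
    rcases le_or_gt p B with hpB | hpB
    · have hpF : (p : ℤ) ∣ F := by
        rw [hF]
        exact_mod_cast (hpp.dvd_factorial).2 hpB
      rcases hpi.dvd_or_dvd hp1 with h4 | h4
      · have h5 := hpi.dvd_of_dvd_pow h4
        rw [hδ'] at h5
        have h6 : (p : ℤ) ∣ b * F * s := dvd_mul_of_dvd_left (dvd_mul_of_dvd_right hpF _) _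
        exact hpi.not_dvd_one ((dvd_add_left h6).1 h5)
      · rw [hu] at h4
        have h6 : (p : ℤ) ∣ σ * F ^ (l + 1) * δ * v :=
          dvd_mul_of_dvd_left (dvd_mul_of_dvd_left (dvd_mul_of_dvd_right
            (dvd_pow hpF (Nat.succ_ne_zero l)) _) _) _
        exact hpi.not_dvd_one ((dvd_add_left h6).1 h4)
    · apply hp p hpp hpB hp2
      rw [h3]
      exact dvd_mul_of_dvd_right hp1 _
  · rintro w ⟨w', rfl⟩
    rw [h3]
    have h4 : (j : ℤ) ^ l ∣ F ^ (l + 1) := by
      rw [pow_succ]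
      exact dvd_mul_of_dvd_left (pow_dvd_pow_of_dvd ⟨b, hb⟩ l) _
    have h5 : (j : ℤ) ^ l * q ∣ T := by
      rw [hT, mul_comm]
      refine mul_dvd_mul ?_ h4
      exact (dvd_abs _ _).2 dvd_rfl
    exact mul_dvd_mul h5 (dvd_mul_right _ _)

end Pool.Agent.TH956
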