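import Pool.Agent.TH956.Descent

set_option autoImplicit false

/-!
# Dilated polynomial patterns
-/

namespace Pool.Agent.TH956

open Finset Polynomial

/-- The rescaled polynomial. -/
noncomputable def resc (U : ℤ[X]) (l : ℕ) (T : ℤ) : ℤ[X] := X ^ l * U.comp (C T * X)

theorem resc_eval (U : ℤ[X]) (l : ℕ) (T z : ℤ) :
    (resc U l T).eval z = z ^ l * U.eval (T * z) := by
  simp [resc, eval_comp]

theorem resc_coeff (U : ℤ[X]) (l : ℕ) (T : ℤ) : (resc U l T).coeff l = U.eval 0 := by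
  have h1 : (resc U l T).coeff (0 + l) = (U.comp (C T * X)).coeff 0 := coeff_X_pow_mul _ _ _
  rw [zero_add] at h1
  rw [h1, coeff_zero_eq_eval_zero, eval_comp]
  simp

theorem natDegree_comp_CX (U : ℤ[X]) (T : ℤ) : (U.comp (C T * X)).natDegree ≤ U.natDegree := by
  refine natDegree_comp_le.trans ?_
  have h1 : (C T * X : ℤ[X]).natDegree ≤ 1 := (natDegree_C_mul_le T X).trans natDegree_X_le
  calc U.natDegree * (C T * X : ℤ[X]).natDegree ≤ U.natDegree * 1 := Nat.mul_le_mul_left _ h1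
    _ = U.natDegree := mul_one _

theorem resc_natDegree (U : ℤ[X]) (l : ℕ) (T : ℤ) : (resc U l T).natDegree ≤ l + U.natDegree := by
  refine natDegree_mul_le.trans (Nat.add_le_add (natDegree_X_pow_le l) (natDegree_comp_CX U T))

/-- Shifts of the rescaled polynomial are separated. -/
theorem resc_sep (U : ℤ[X]) (l : ℕ) (hl : 1 ≤ l) (hU : U.eval 0 ≠ 0) (T : ℤ) (R : ℕ)
    (hR : ∀ x : ℂ, aeval x (X ^ l * U : ℤ[X]) = 0 → ‖x‖ ≤ R) (hT : (2 * R : ℤ) < T)
    (z z' : ℤ) (hz : z ≠ z') : ∃ ρ : ℤ, ρ ≠ 0 ∧ ∀ t g : ℤ, g ∣ (resc U l T).eval (t + z) →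
      g ∣ (resc U l T).eval (t + z') → g ∣ ρ := by
  apply sep_of_roots _ _ _ z z' hz
  · have h1 : (resc U l T).coeff l ≠ 0 := by rw [resc_coeff]; exact hU
    have := le_natDegree_of_ne_zero h1
    omega
  · intro z z' hz a
    by_contra hcon
    push Not at hcon
    have key : ∀ w : ℤ, aeval (a + w) (resc U l T) = 0 → ‖(T : ℂ) * (a + w)‖ ≤ R := by
      intro w hw
      apply hR
      have h1 : aeval (a + w) (resc U l T) = (a + w) ^ l * aeval ((T : ℂ) * (a + w)) U := by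
        unfold resc
        rw [map_mul, map_pow, aeval_X, aeval_comp]
        simp
      rw [h1] at hw
      rw [map_mul, map_pow, aeval_X, mul_pow, mul_assoc, hw, mul_zero]
    have h1 := key z hcon.1
    have h2 := key z' hcon.2
    have h3 : (T : ℂ) * (a + z) - (T : ℂ) * (a + z') = ((T * (z - z') : ℤ) : ℂ) := by
      push_cast; ring
    have h4 : ‖((T * (z - z') : ℤ) : ℂ)‖ ≤ R + R := by
      rw [← h3]
      exact (norm_sub_le _ _).trans (add_le_add h1 h2)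
    rw [Complex.norm_intCast] at h4
    have h5 : |(T * (z - z') : ℤ)| ≤ (R : ℤ) + R := by exact_mod_cast h4
    rw [abs_mul] at h5
    have h6 : 1 ≤ |z - z'| := Int.one_le_abs (sub_ne_zero.2 hz)
    have h7 : T ≤ |T| := le_abs_self T
    nlinarith [abs_nonneg T]

/-- The polynomial whose values have to avoid the large primes. -/
noncomputable def hpol (f : ℤ[X]) (r : ℕ) (H : Finset ℤ) : ℤ[X] :=
  ∏ j ∈ Icc 1 r, ∏ η ∈ H, f.comp (C (j : ℤ) * X + C η)

theorem hpol_eval (f : ℤ[X]) (r : ℕ) (H : Finset ℤ) (θ : ℤ) :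
    (hpol f r H).eval θ = ∏ j ∈ Icc 1 r, ∏ η ∈ H, f.eval (j * θ + η) := by
  unfold hpol
  rw [eval_prod]
  refine prod_congr rfl fun j _ => ?_
  rw [eval_prod]
  refine prod_congr rfl fun η _ => ?_
  rw [eval_comp]
  simp

theorem hpol_natDegree (f : ℤ[X]) (r : ℕ) (H : Finset ℤ) :
    (hpol f r H).natDegree ≤ r * (H.card * f.natDegree) := by
  unfold hpol
  refine (natDegree_prod_le _ _).trans ?_
  have h1 : ∀ j ∈ Icc 1 r, (∏ η ∈ H, f.comp (C (j : ℤ) * X + C η)).natDegree ≤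
      H.card * f.natDegree := by
    intro j _
    refine (natDegree_prod_le _ _).trans ?_
    refine (sum_le_card_nsmul _ _ f.natDegree fun η _ => ?_).trans (by simp)
    refine natDegree_comp_le.trans ?_
    calc f.natDegree * (C (j : ℤ) * X + C η : ℤ[X]).natDegree ≤ f.natDegree * 1 :=
          Nat.mul_le_mul_left _ natDegree_linear_le
      _ = f.natDegree := mul_one _
  refine (sum_le_card_nsmul _ _ _ h1).trans ?_
  simp

theorem hpol_map_ne {p : ℕ} (hp : p.Prime) (f : ℤ[X]) (r : ℕ) (H : Finset ℤ) (hr : r < p)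
    (hf : f.map (Int.castRingHom (ZMod p)) ≠ 0) :
    (hpol f r H).map (Int.castRingHom (ZMod p)) ≠ 0 := by
  have := Fact.mk hp
  unfold hpol
  rw [Polynomial.map_prod, prod_ne_zero_iff]
  intro j hj
  rw [Polynomial.map_prod, prod_ne_zero_iff]
  intro η _
  rw [map_comp]
  intro h
  rw [comp_eq_zero_iff] at h
  rcases h with h | ⟨-, h⟩
  · exact hf h
  · have h1 := congrArg (fun q => coeff q 1) h
    simp only [Polynomial.map_add, Polynomial.map_mul, map_C, map_X] at h1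
    rw [coeff_add, coeff_C_mul, coeff_X_one, coeff_C_succ, coeff_C_succ] at h1
    rw [mem_Icc] at hj
    simp only [eq_intCast, Int.cast_natCast, mul_one, add_zero] at h1
    rw [ZMod.natCast_eq_zero_iff] at h1
    have := Nat.le_of_dvd (by omega) h1
    omega

/-- The generators of the first phase. -/
theorem exists_gen1 (f : ℤ[X]) (hf : ∀ z : ℤ, z ≠ 0 → f.eval z ≠ 0) (M : ℤ) (hM : M ≠ 0) :
    ∃ y : ℕ → ℤ, (∀ n, 0 < y n) ∧ (∀ n, M ∣ y n) ∧
      ∀ n, ∀ α ⊆ range n, α.Nonempty → f.eval (∑ i ∈ α, y i) ∣ y n := by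
  obtain ⟨y, hy⟩ := exists_seq (fun F v => 0 < v ∧ M ∣ v ∧ ∀ s ∈ F, s ≠ 0 → f.eval s ∣ v) (by
    intro F
    refine ⟨|M * ∏ s ∈ F.erase 0, f.eval s|, ?_, ?_, ?_⟩
    · rw [abs_pos]
      refine mul_ne_zero hM (prod_ne_zero_iff.2 fun s hs => hf s (mem_erase.1 hs).1)
    · exact (dvd_abs _ _).2 (dvd_mul_right _ _)
    · intro s hs hs0
      exact (dvd_abs _ _).2 (dvd_mul_of_dvd_right (dvd_prod_of_mem _ (mem_erase.2 ⟨hs0, hs⟩)) _))
  refine ⟨y, fun n => (hy n).1, fun n => (hy n).2.1, fun n α hα hne => ?_⟩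
  refine (hy n).2.2 _ (mem_ssums hα) (ne_of_gt (sum_pos (fun i _ => (hy i).1) hne))

/-- The generators of the second phase. -/
theorem exists_gen2 (f : ℤ[X]) (hf : ∀ z : ℤ, z ≠ 0 → f.eval z ≠ 0)
    (hsep : ∀ z z' : ℤ, z ≠ z' → ∃ ρ : ℤ, ρ ≠ 0 ∧ ∀ t g : ℤ, g ∣ f.eval (t + z) →
      g ∣ f.eval (t + z') → g ∣ ρ) (H : Finset ℤ) (hH : ∀ η ∈ H, 0 < η)
    (Ω θ : ℤ) (hΩ : Ω ≠ 0) :
    ∃ t : ℕ → ℤ, (∀ n, 0 < t n) ∧ (∀ n, Ω ∣ t n - θ) ∧
      (∀ n, ∀ β ⊆ range n, ∀ η ∈ (H : Set ℤ), ∀ g : ℤ, IsCoprime g Ω →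
        g ∣ f.eval (∑ i ∈ β, t i + η) → g ∣ t n) ∧
      (∀ n, ∀ β ⊆ range n, ∀ β' ⊆ range n, ∀ η ∈ (H : Set ℤ), ∀ η' ∈ (H : Set ℤ),
        ∑ i ∈ β, t i + η ≠ ∑ i ∈ β', t i + η' → ∀ g : ℤ, IsCoprime g Ω →
        g ∣ f.eval (t n + (∑ i ∈ β, t i + η)) → g ∣ f.eval (t n + (∑ i ∈ β', t i + η')) →
        g ∣ t n) ∧
      (∀ n, ∀ β ⊆ range n, ∀ β' ⊆ range n, ∀ η ∈ (H : Set ℤ), ∀ η' ∈ (H : Set ℤ),
        ∑ i ∈ β, t i + η = ∑ i ∈ β', t i + η' → β = β') := by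
  classical
  choose! ρ hρ hρ' using hsep
  obtain ⟨t, ht⟩ := exists_seq (fun F v => 0 < v ∧ Ω ∣ v - θ ∧
    (∀ s ∈ F, ∀ η ∈ H, f.eval (s + η) ≠ 0 → ∀ g : ℤ, IsCoprime g Ω → g ∣ f.eval (s + η) → g ∣ v) ∧
    (∀ s ∈ F, ∀ s' ∈ F, ∀ η ∈ H, ∀ η' ∈ H, s + η ≠ s' + η' → ∀ g : ℤ, IsCoprime g Ω →
      g ∣ ρ (s + η) (s' + η') → g ∣ v) ∧
    (∀ s ∈ F, ∀ s' ∈ F, ∀ η ∈ H, ∀ η' ∈ H, s + η - (s' + η') < v)) (by
    intro F
    set N : ℤ := (∏ x ∈ F ×ˢ H, if f.eval (x.1 + x.2) = 0 then 1 else f.eval (x.1 + x.2)) *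
      ∏ x ∈ F ×ˢ H, ∏ x' ∈ F ×ˢ H,
        if x.1 + x.2 = x'.1 + x'.2 then 1 else ρ (x.1 + x.2) (x'.1 + x'.2) with hN
    have hN0 : N ≠ 0 := by
      rw [hN]
      refine mul_ne_zero (prod_ne_zero_iff.2 fun x _ => ?_)
        (prod_ne_zero_iff.2 fun x _ => prod_ne_zero_iff.2 fun x' _ => ?_)
      · split_ifs with h
        · exact one_ne_zero
        · exact h
      · split_ifs with h
        · exact one_ne_zero
        · exact hρ _ _ h
    set b : ℤ := ∑ x ∈ F ×ˢ H, ∑ x' ∈ F ×ˢ H, |x.1 + x.2 - (x'.1 + x'.2)| with hb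
    have hb0 : 0 ≤ b := sum_nonneg fun _ _ => sum_nonneg fun _ _ => abs_nonneg _
    obtain ⟨v, h1, h2, h3⟩ := exists_gen Ω hΩ θ N b hN0
    refine ⟨v, by linarith, h1, ?_, ?_, ?_⟩
    · intro s hs η hη h0 g hg hgd
      apply h2 g hg
      rw [hN]
      refine dvd_mul_of_dvd_left (hgd.trans ?_) _
      have h4 : (s, η) ∈ F ×ˢ H := mem_product.2 ⟨hs, hη⟩
      have h5 := dvd_prod_of_mem (fun x : ℤ × ℤ =>
        if f.eval (x.1 + x.2) = 0 then 1 else f.eval (x.1 + x.2)) h4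
      simpa only [if_neg h0] using h5
    · intro s hs s' hs' η hη η' hη' h0 g hg hgd
      apply h2 g hg
      rw [hN]
      refine dvd_mul_of_dvd_right (hgd.trans ?_) _
      have h4 : (s, η) ∈ F ×ˢ H := mem_product.2 ⟨hs, hη⟩
      have h4' : (s', η') ∈ F ×ˢ H := mem_product.2 ⟨hs', hη'⟩
      have h5 := dvd_prod_of_mem (fun x : ℤ × ℤ => ∏ x' ∈ F ×ˢ H,
        if x.1 + x.2 = x'.1 + x'.2 then 1 else ρ (x.1 + x.2) (x'.1 + x'.2)) h4
      have h6 := dvd_prod_of_mem (fun x' : ℤ × ℤ =>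
        if s + η = x'.1 + x'.2 then 1 else ρ (s + η) (x'.1 + x'.2)) h4'
      simp only [if_neg h0] at h6
      exact h6.trans h5
    · intro s hs s' hs' η hη η' hη'
      refine lt_of_le_of_lt ?_ h3
      have h4 : (s, η) ∈ F ×ˢ H := mem_product.2 ⟨hs, hη⟩
      have h4' : (s', η') ∈ F ×ˢ H := mem_product.2 ⟨hs', hη'⟩
      refine (le_abs_self _).trans ?_
      have h6 := single_le_sum (f := fun x' : ℤ × ℤ => |s + η - (x'.1 + x'.2)|)
        (fun _ _ => abs_nonneg _) h4'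
      have h5 := single_le_sum (f := fun x : ℤ × ℤ => ∑ x' ∈ F ×ˢ H,
        |x.1 + x.2 - (x'.1 + x'.2)|) (fun _ _ => sum_nonneg fun _ _ => abs_nonneg _) h4
      exact h6.trans h5)
  refine ⟨t, fun n => (ht n).1, fun n => (ht n).2.1, ?_, ?_, ?_⟩
  · intro n β hβ η hη g hg hgd
    refine (ht n).2.2.1 _ (mem_ssums hβ) η hη (hf _ ?_) g hg hgd
    have h1 : 0 ≤ ∑ i ∈ β, t i := sum_nonneg fun i _ => (ht i).1.le
    have h2 := hH η hη
    omega
  · intro n β hβ β' hβ' η hη η' hη' hne g hg hgd hgd'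
    exact (ht n).2.2.2.1 _ (mem_ssums hβ) _ (mem_ssums hβ') η hη η' hη' hne g hg
      (hρ' _ _ hne _ _ hgd hgd')
  · exact sums_unique fun n s hs s' hs' η hη η' hη' => (ht n).2.2.2.2 s hs s' hs' η hη η' hη'

/-- The choice of the residue of the generators of the second phase. -/
theorem exists_theta2 (U : ℤ[X]) (l : ℕ) (hU : U.eval 0 ≠ 0) (T : ℤ) (B r h : ℕ)
    (hB1 : (U.eval 0).natAbs ≤ B) (hB2 : r * (h * (l + U.natDegree)) ≤ B) (hB3 : r ≤ B)
    (H : Finset ℤ) (hH : H.card ≤ h) (Ω : ℤ) (hΩ : Ω ≠ 0) :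
    ∃ θ : ℤ, ((B.factorial : ℤ)) ^ 2 ∣ θ - 1 ∧ ∀ p : ℕ, p.Prime → B < p → (p : ℤ) ∣ Ω →
      ∀ j : ℕ, 1 ≤ j → j ≤ r → ∀ η ∈ H, ¬ (p : ℤ) ∣ (resc U l T).eval (j * θ + η) := by
  classical
  set s : Finset ℕ := Ω.natAbs.primeFactors.filter (fun p => B < p) with hs
  have hs' : ∀ p ∈ s, p.Prime ∧ B < p := fun p hp => by
    rw [hs, mem_filter] at hp
    exact ⟨Nat.prime_of_mem_primeFactors hp.1, hp.2⟩
  obtain ⟨θ, h1, h2⟩ := exists_theta ((B.factorial : ℤ) ^ 2) (hpol (resc U l T) r H) s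
    (fun p hp => (hs' p hp).1) (fun p hp hdvd => by
      have h3 := (Nat.prime_iff_prime_int.1 (hs' p hp).1).dvd_of_dvd_pow hdvd
      have h4 : p ∣ B.factorial := by exact_mod_cast h3
      rw [(hs' p hp).1.dvd_factorial] at h4
      have := (hs' p hp).2
      omega)
    (fun p hp => by
      refine lt_of_le_of_lt ?_ (hs' p hp).2
      refine (hpol_natDegree _ _ _).trans (le_trans ?_ hB2)
      exact Nat.mul_le_mul_left _ (Nat.mul_le_mul hH (resc_natDegree U l T)))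
    (fun p hp => by
      refine hpol_map_ne (hs' p hp).1 _ r H (lt_of_le_of_lt hB3 (hs' p hp).2) ?_
      intro h3
      have h4 := congrArg (fun q => coeff q l) h3
      simp only [coeff_map, resc_coeff, coeff_zero] at h4
      rw [eq_intCast, ZMod.intCast_zmod_eq_zero_iff_dvd] at h4
      have h5 : p ∣ (U.eval 0).natAbs := Int.natCast_dvd.1 h4
      have h6 := Nat.le_of_dvd (Int.natAbs_pos.2 hU) h5
      have := (hs' p hp).2
      omega)
  refine ⟨θ, h1, fun p hp hpB hpΩ j hj hjr η hη hdvd => ?_⟩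
  have hps : p ∈ s := by
    rw [hs, mem_filter, Nat.mem_primeFactors]
    exact ⟨⟨hp, Int.natCast_dvd.1 hpΩ, Int.natAbs_ne_zero.2 hΩ⟩, hpB⟩
  apply h2 p hps
  rw [hpol_eval]
  refine hdvd.trans (dvd_trans ?_ (dvd_prod_of_mem _ (mem_Icc.2 ⟨hj, hjr⟩)))
  exact dvd_prod_of_mem (fun η => (resc U l T).eval (j * θ + η)) hη

/-- The pattern for `Q = X ^ l * U` and `P i = X * R i`. -/
theorem core {ι : Type} [Fintype ι] (U : ℤ[X]) (l : ℕ) (hl : 1 ≤ l) (hU : U.eval 0 ≠ 0)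
    (R : ι → ℤ[X]) (κ : Type) [Finite κ] [Nonempty κ] (c : ℤ → κ) :
    ∃ Y d : ℤ, d ≠ 0 ∧ (X ^ l * U : ℤ[X]).eval d ≠ 0 ∧ (X ^ l * U : ℤ[X]).eval d ∣ Y ∧
      ∃ a : κ, ∀ i, c (Y + (X ^ l * U : ℤ[X]).eval d * (d * (R i).eval d)) = a := by
  classical
  set K1 : ℕ := Nat.card κ with hK1
  set N1 : ℕ := Fintype.card ι with hN1
  set D : ℕ := l + U.natDegree + (1 + univ.sup (fun i => (R i).natDegree)) with hD
  obtain ⟨r1, M1, h1⟩ := tree_vdw (A := ℤ) K1 N1 D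
  set W : ℕ := M1 * (2 ^ r1 * N1) with hW
  obtain ⟨r2, M2, h2⟩ := tree_vdw (A := ℤ) (K1 ^ W) W D
  have hU0 : U ≠ 0 := by rintro rfl; simp at hU
  have hQ : (X ^ l * U : ℤ[X]) ≠ 0 := mul_ne_zero (pow_ne_zero _ X_ne_zero) hU0
  obtain ⟨Rb, hRb⟩ := exists_root_bound _ hQ
  set q : ℤ := U.eval 0 with hq
  set B : ℕ := r2 + q.natAbs + r2 * (2 ^ r1 * (l + U.natDegree)) + (2 * Rb + 1) with hB
  set G : ℤ := (B.factorial : ℤ) with hG
  have hG1 : 1 ≤ G := by rw [hG]; exact_mod_cast Nat.one_le_iff_ne_zero.2 B.factorial_ne_zero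
  set T : ℤ := |q| * G ^ (l + 1) with hT
  have hT2 : (2 * Rb : ℤ) < T := by
    have h3 : (B : ℤ) ≤ G := by rw [hG]; exact_mod_cast Nat.self_le_factorial B
    have h4 : G ≤ G ^ (l + 1) := le_self_pow₀ hG1 (Nat.succ_ne_zero l)
    have h5 : 1 ≤ |q| := Int.one_le_abs hU
    have h6 : G ^ (l + 1) ≤ |q| * G ^ (l + 1) :=
      le_mul_of_one_le_left (by positivity) h5
    have h7 : (2 * Rb + 1 : ℤ) ≤ B := by
      have h8 : 2 * Rb + 1 ≤ B := by rw [hB]; exact Nat.le_add_left _ _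
      exact_mod_cast h8
    rw [hT]
    linarith
  have hTpos : 0 < T := by
    have : (0 : ℤ) ≤ Rb := by positivity
    linarith
  set f : ℤ[X] := resc U l T with hf
  have hsep := resc_sep U l hl hU T Rb hRb hT2
  rw [← hf] at hsep
  have hf0 : f.eval 0 = 0 := by
    rw [hf, resc_eval, zero_pow (by omega), zero_mul]
  have hfne : ∀ z : ℤ, z ≠ 0 → f.eval z ≠ 0 := by
    intro z hz h0
    obtain ⟨ρ, hρ, hρ'⟩ := hsep z 0 hz
    have h3 := hρ' 0 0 (by rw [zero_add, h0]) (by rw [add_zero, hf0])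
    exact hρ (zero_dvd_iff.1 h3)
  set S : ι → ℤ[X] := fun i => f * (X * (R i).comp (C T * X)) with hS
  have hSeval : ∀ i z, (S i).eval z = f.eval z * (z * (R i).eval (T * z)) := by
    intro i z
    simp [hS, eval_comp]
  have hS0 : ∀ i, (S i).eval 0 = 0 := fun i => by rw [hSeval, hf0, zero_mul]
  have hfd : f.natDegree ≤ l + U.natDegree := resc_natDegree U l T
  have hSd : ∀ i, (S i).natDegree ≤ D := by
    intro i
    rw [hD]
    refine natDegree_mul_le.trans (Nat.add_le_add hfd ?_)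
    refine natDegree_mul_le.trans (Nat.add_le_add natDegree_X_le ?_)
    exact (natDegree_comp_CX _ _).trans (le_sup (f := fun i => (R i).natDegree) (mem_univ i))
  -- the first phase
  obtain ⟨y1, hy1pos, hy1M, hy1dvd⟩ := exists_gen1 f hfne (G ^ 2) (by positivity)
  obtain ⟨V1, E1, hV1, hE1, hcov1⟩ := h1 (univ.image S) (card_image_le.trans (by simp [hN1]))
    (fun p hp => by obtain ⟨i, -, rfl⟩ := mem_image.1 hp; exact hS0 i)
    (fun p hp => by obtain ⟨i, -, rfl⟩ := mem_image.1 hp; exact hSd i) y1 κ le_rfl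
  set η : Finset ℕ → ℤ := fun α => ∑ i ∈ α, y1 i with hη
  set Pw : Finset (Finset ℕ) := (range r1).powerset.filter (fun α => α.Nonempty) with hPw
  have hPwcard : Pw.card ≤ 2 ^ r1 := by
    refine (card_le_card (filter_subset _ _)).trans ?_
    rw [card_powerset, card_range]
  set H : Finset ℤ := Pw.image η with hH
  have hHcard : H.card ≤ 2 ^ r1 := card_image_le.trans hPwcard
  have hηpos : ∀ α : Finset ℕ, α.Nonempty → 0 < η α := fun α hα =>
    sum_pos (fun i _ => hy1pos i) hα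
  have hHpos : ∀ x ∈ H, 0 < x := by
    intro x hx
    obtain ⟨α, hα, rfl⟩ := mem_image.1 hx
    exact hηpos α (mem_filter.1 hα).2
  set Ω : ℤ := G ^ 2 * ∏ x ∈ H, f.eval x with hΩ
  have hΩ0 : Ω ≠ 0 := mul_ne_zero (by positivity)
    (prod_ne_zero_iff.2 fun x hx => hfne x (hHpos x hx).ne')
  obtain ⟨θ, hθ1, hθ2⟩ := exists_theta2 U l hU T B r2 (2 ^ r1) (by omega) (by omega) (by omega)
    H hHcard Ω hΩ0
  obtain ⟨t, ht0, htΩ, ht1, ht2, ht3⟩ := exists_gen2 f hfne hsep H hHpos Ω θ hΩ0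
  -- the base points of the first phase
  set z0 : Finset ℕ → ℤ := fun α => if h : ∃ z c, (z, α, c) ∈ E1 then h.choose else 0 with hz0
  have hz0' : ∀ z α c, (z, α, c) ∈ E1 → f.eval (η α) ∣ z - z0 α := by
    intro z α c he
    have hex : ∃ z c, (z, α, c) ∈ E1 := ⟨z, c, he⟩
    obtain ⟨c', hc'⟩ := hex.choose_spec
    have h3 : z0 α = hex.choose := by
      rw [hz0]
      simp only [dif_pos hex]
    rw [h3]
    have hne := hE1.ne _ _ _ he
    refine hE1.dvd' z α c _ α c' (α.max' hne) he hc' ⟨max'_mem _ _, max'_mem _ _,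
      fun _ _ => Iff.rfl⟩ _ fun n hn _ => ?_
    refine hy1dvd n α (fun k hk => ?_) hne
    rw [mem_range]
    exact lt_of_le_of_lt (le_max' _ _ hk) hn
  set J : Finset (ℤ × (Finset ℕ × ι)) := V1 ×ˢ (Pw ×ˢ univ) with hJ
  have hJcard : J.card ≤ W := by
    rw [hJ, card_product, card_product, card_univ, hW]
    exact Nat.mul_le_mul hV1 (Nat.mul_le_mul_right _ hPwcard)
  set Fp : ℤ × (Finset ℕ × ι) → ℤ[X] := fun x => C (z0 x.2.1 - x.1) +
    C ((x.1 - z0 x.2.1) / f.eval (η x.2.1)) * taylor (η x.2.1) f +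
    taylor (η x.2.1) (S x.2.2) - C ((S x.2.2).eval (η x.2.1)) with hFp
  have hFpeval : ∀ z α i x, (Fp (z, α, i)).eval x = (z0 α - z) +
      (z - z0 α) / f.eval (η α) * f.eval (x + η α) + (S i).eval (x + η α) -
        (S i).eval (η α) := by
    intro z α i x
    rw [hFp]
    simp only [eval_add, eval_sub, eval_mul, eval_C, taylor_eval]
  set A2 : Finset ℤ[X] := (J.filter (fun x => f.eval (η x.2.1) ∣ x.1 - z0 x.2.1)).image Fp with hA2
  set U1 : Finset ℤ := J.image (fun x => x.1 + (S x.2.2).eval (η x.2.1)) with hU1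
  have hK1pos : 1 ≤ K1 := Nat.card_pos
  obtain ⟨V2, E2, -, hE2, hcov2⟩ := h2 A2
    (card_image_le.trans ((card_le_card (filter_subset _ _)).trans hJcard))
    (fun p hp => by
      obtain ⟨⟨z, α, i⟩, hx, rfl⟩ := mem_image.1 hp
      rw [hFpeval, zero_add, Int.ediv_mul_cancel (mem_filter.1 hx).2]
      ring)
    (fun p hp => by
      obtain ⟨⟨z, α, i⟩, hx, rfl⟩ := mem_image.1 hp
      rw [hFp]
      have h3 : l + U.natDegree ≤ D := by rw [hD]; exact Nat.le_add_right _ _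
      refine (natDegree_sub_le _ _).trans (max_le ((natDegree_add_le _ _).trans (max_le
        ((natDegree_add_le _ _).trans (max_le ?_ ?_)) ?_)) ?_)
      · rw [natDegree_C]; exact Nat.zero_le _
      · refine (natDegree_C_mul_le _ _).trans ?_
        rw [natDegree_taylor]
        exact hfd.trans h3
      · rw [natDegree_taylor]
        exact hSd _
      · rw [natDegree_C]; exact Nat.zero_le _)
    t (U1 → κ) (by
      rw [Nat.card_fun]
      have h3 : Nat.card U1 = U1.card := by simp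
      rw [h3]
      exact Nat.pow_le_pow_right hK1pos (card_image_le.trans hJcard))
  choose zf αf cf hfE hf2 hf3 using fun χ : U1 → κ => hcov1 (extCol U1 χ)
  have hαP : ∀ χ, αf χ ∈ Pw := fun χ => by
    rw [hPw, mem_filter, mem_powerset]
    exact ⟨hE1.sub _ _ _ (hfE χ), hE1.ne _ _ _ (hfE χ)⟩
  have hαH : ∀ χ, η (αf χ) ∈ H := fun χ => mem_image.2 ⟨_, hαP χ, rfl⟩
  -- the moduli
  have hdec : ∀ (β : Finset ℕ) (χ : U1 → κ), β.Nonempty → β ⊆ range r2 →
      ∃ m : ℤ, IsCoprime m Ω ∧ m ∣ f.eval (∑ i ∈ β, t i + η (αf χ)) ∧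
        ∀ w : ℤ, m ∣ w → f.eval (∑ i ∈ β, t i + η (αf χ)) ∣ T * w := by
    intro β χ hβ hβr
    have hcard1 : 1 ≤ β.card := hβ.card_pos
    have hcard2 : β.card ≤ r2 := by
      have := card_le_card hβr
      rwa [card_range] at this
    have hsumΩ : Ω ∣ ∑ i ∈ β, t i - β.card * θ := by
      have h3 : ∑ i ∈ β, t i - β.card * θ = ∑ i ∈ β, (t i - θ) := by
        rw [sum_sub_distrib, sum_const, nsmul_eq_mul]
      rw [h3]
      exact dvd_sum fun i _ => htΩ i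
    have hGΩ : G ^ 2 ∣ Ω := dvd_mul_right _ _
    have h4 := decomp U l B β.card Ω (∑ i ∈ β, t i + η (αf χ)) hcard1 (by omega) (by
      have h5 : G ^ 2 ∣ η (αf χ) := dvd_sum fun i _ => hy1M i
      have h6 : ∑ i ∈ β, t i + η (αf χ) - (β.card : ℤ) =
        (∑ i ∈ β, t i - β.card * θ) + β.card * (θ - 1) + η (αf χ) := by ring
      rw [h6]
      exact dvd_add (dvd_add (hGΩ.trans hsumΩ) (dvd_mul_of_dvd_right hθ1 _)) h5) (by
      intro p hp hpB hpΩ hdvd
      apply hθ2 p hp hpB hpΩ β.card hcard1 hcard2 _ (hαH χ)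
      have h5 : (p : ℤ) ∣ f.eval (∑ i ∈ β, t i + η (αf χ)) := by
        rw [hf, resc_eval]
        exact hdvd
      have h6 : (p : ℤ) ∣ f.eval (∑ i ∈ β, t i + η (αf χ)) - f.eval (β.card * θ + η (αf χ)) := by
        refine dvd_trans ?_ (sub_dvd_eval_sub _ _ f)
        rw [add_sub_add_right_eq_sub]
        exact hpΩ.trans hsumΩ
      exact (dvd_sub_right h5).1 h6)
    obtain ⟨m, hm1, hm2, hm3⟩ := h4
    refine ⟨m, hm1, ?_, fun w hw => ?_⟩
    · rw [hf, resc_eval]; exact hm2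
    · rw [hf, resc_eval]; exact hm3 w hw
  choose! md hmd1 hmd2 hmd3 using hdec
  have hfin : E2.Finite := by
    have := Fintype.ofFinite κ
    refine (Finset.finite_toSet (V2 ×ˢ ((range r2).powerset ×ˢ (univ : Finset (U1 → κ))))).subset ?_
    rintro ⟨a, β, χ⟩ he
    rw [mem_coe, mem_product, mem_product, mem_powerset]
    exact ⟨hE2.mem _ _ _ he, hE2.sub _ _ _ he, mem_univ _⟩
  obtain ⟨w, hw⟩ := crt_finset hfin.toFinset (fun e => md e.2.1 e.2.2)
    (fun e => e.1 + z0 (αf e.2.2)) (by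
    rintro ⟨a, β, χ⟩ he ⟨a', β', χ'⟩ he' g hg hg'
    rw [Set.Finite.mem_toFinset] at he he'
    simp only at hg hg' ⊢
    have hne := hE2.ne _ _ _ he
    have hne' := hE2.ne _ _ _ he'
    have hsub := hE2.sub _ _ _ he
    have hsub' := hE2.sub _ _ _ he'
    have hcop : IsCoprime g Ω := (hmd1 β χ hne hsub).of_isCoprime_of_dvd_left hg
    rcases descent (f := fun z => f.eval z) (Ω := Ω) (t := t) (H := (H : Set ℤ))
      (fun g a b h => h.trans (sub_dvd_eval_sub _ _ f)) ht1 ht2 ht3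
      (fun x hx => dvd_mul_of_dvd_right (dvd_prod_of_mem (fun x => f.eval x) hx) _) r2 β β' hsub
      hsub' hne hne' (η (αf χ)) (hαH χ) (η (αf χ')) (hαH χ') g hcop
      (hg.trans (hmd2 β χ hne hsub)) (hg'.trans (hmd2 β' χ' hne' hsub')) with hu | ⟨m, hm, hk⟩
    · exact hu.dvd
    · have h3 := hE2.col _ _ _ _ _ _ m he he' hm
      subst h3
      have h4 := hE2.dvd' _ _ _ _ _ _ m he he' hm g fun n hn _ => hk n hn
      rw [add_sub_add_right_eq_sub]
      exact h4)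
  -- the final application
  obtain ⟨a, β, χ, he, -, hcol⟩ := hcov2 (fun v u => c (T ^ (l + 1) * (w + v + u)))
  have hne := hE2.ne _ _ _ he
  have hsub := hE2.sub _ _ _ he
  set x : ℤ := ∑ i ∈ β, t i with hx
  have hxpos : 0 < x := sum_pos (fun i _ => ht0 i) hne
  have hδpos : 0 < x + η (αf χ) := add_pos hxpos (hHpos _ (hαH χ))
  set δ : ℤ := x + η (αf χ) with hδ
  set k : ℤ := (zf χ - z0 (αf χ)) / f.eval (η (αf χ)) with hk
  have hQd : (X ^ l * U : ℤ[X]).eval (T * δ) = T ^ l * f.eval δ := by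
    rw [eval_mul, eval_pow, eval_X, hf, resc_eval, mul_pow, mul_assoc]
  refine ⟨T ^ (l + 1) * (w + a + z0 (αf χ) + k * f.eval δ), T * δ,
    mul_ne_zero hTpos.ne' hδpos.ne', ?_, ?_, cf χ, fun i => ?_⟩
  · rw [hQd]
    exact mul_ne_zero (pow_ne_zero _ hTpos.ne') (hfne _ hδpos.ne')
  · rw [hQd]
    have h3 := hw (a, β, χ) (by rw [Set.Finite.mem_toFinset]; exact he)
    simp only at h3
    have h4 := hmd3 β χ hne hsub _ h3
    have h5 : T ^ (l + 1) * (w + a + z0 (αf χ) + k * f.eval δ) =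
      T ^ l * (T * (w + (a + z0 (αf χ))) + f.eval δ * (T * k)) := by ring
    rw [h5]
    exact mul_dvd_mul_left _ (dvd_add h4 (dvd_mul_right _ _))
  · rw [hQd]
    have hzV : zf χ ∈ V1 := hE1.mem _ _ _ (hfE χ)
    have hJm : (zf χ, αf χ, i) ∈ J := by
      rw [hJ, mem_product, mem_product]
      exact ⟨hzV, hαP χ, mem_univ _⟩
    have hum : zf χ + (S i).eval (η (αf χ)) ∈ U1 := mem_image.2 ⟨_, hJm, rfl⟩
    have hFm : Fp (zf χ, αf χ, i) ∈ A2 := mem_image.2 ⟨_, mem_filter.2 ⟨hJm,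
      hz0' _ _ _ (hfE χ)⟩, rfl⟩
    have h3 := congrFun (hcol _ hFm) ⟨_, hum⟩
    simp only at h3
    have h4 := hf3 χ (S i) (mem_image_of_mem _ (mem_univ i))
    rw [extCol_of_mem χ hum] at h4
    rw [← h4, ← h3, hFpeval]
    congr 1
    rw [hSeval i (x + η (αf χ)), ← hδ, ← hk]
    ring

end Pool.Agent.TH956
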