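import Mathlib

set_option autoImplicit false

/-!
# Folkman's theorem on finite sums, finite version
-/

namespace Pool.Agent.TH956

open Finset

/-- A finite van der Waerden theorem with positive terms. -/
theorem vdw_finite (κ : Type) [Finite κ] (M : ℕ) : ∃ R : ℕ, ∀ c : ℕ → κ, ∃ a d : ℕ,
    0 < a ∧ 0 < d ∧ a + d * M ≤ R ∧ ∃ k : κ, ∀ s ≤ M, c (a + d * s) = k := by
  classical
  obtain ⟨ι, hι, hHJ⟩ := Combinatorics.Line.exists_mono_in_high_dimension (Fin (M + 1)) κ
  refine ⟨1 + Fintype.card ι * M, fun c => ?_⟩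
  obtain ⟨l, k, hk⟩ := hHJ (fun w => c (1 + ∑ i, (w i : ℕ)))
  set act : Finset ι := {i | l.idxFun i = none} with hact
  have hactpos : 0 < act.card := by
    obtain ⟨i, hi⟩ := l.proper
    exact card_pos.2 ⟨i, by simp [act, hi]⟩
  have hsum : ∀ s : Fin (M + 1), (∑ i, ((l s) i : ℕ)) = (∑ i, ((l 0) i : ℕ)) + act.card * s := by
    intro s
    have h1 : ∀ i, ((l s) i : ℕ) = ((l 0) i : ℕ) + (if i ∈ act then (s : ℕ) else 0) := by
      intro i
      by_cases hi : l.idxFun i = none
      · have hi' : i ∈ act := by simp [act, hi]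
        rw [if_pos hi', Combinatorics.Line.apply_none _ _ _ hi,
          Combinatorics.Line.apply_none _ _ _ hi]
        simp
      · have hi' : i ∉ act := by simp [act, hi]
        rw [if_neg hi', add_zero]
        obtain ⟨t, ht⟩ := Option.ne_none_iff_exists'.1 hi
        rw [Combinatorics.Line.apply_some ht, Combinatorics.Line.apply_some ht]
    rw [sum_congr rfl fun i _ => h1 i, sum_add_distrib, sum_ite_mem, univ_inter, sum_const,
      smul_eq_mul]
  refine ⟨1 + ∑ i, ((l 0) i : ℕ), act.card, by omega, hactpos, ?_, k, ?_⟩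
  · have h2 := hsum (Fin.last M)
    simp only [Fin.val_last] at h2
    have h3 : (∑ i, ((l (Fin.last M)) i : ℕ)) ≤ Fintype.card ι * M := by
      refine (sum_le_card_nsmul univ _ M (fun i _ => ?_)).trans ?_
      · exact Nat.lt_succ_iff.1 ((l (Fin.last M)) i).2
      · simp
    omega
  · intro s hs
    have h2 := hk ⟨s, Nat.lt_succ_of_le hs⟩
    dsimp only at h2
    rw [hsum] at h2
    rw [← h2]
    congr 1
    ring

/-- The colour of a finite sum depends only on the least index. -/
theorem folk_min (κ : Type) [Finite κ] (m : ℕ) : ∃ R : ℕ, ∀ c : ℕ → κ,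
    ∃ (x : Fin m → ℕ) (φ : Fin m → κ), (∀ i, 0 < x i) ∧ ∑ i, x i ≤ R ∧
      ∀ i, ∀ I : Finset (Fin m), (∀ j ∈ I, i < j) → c (x i + ∑ j ∈ I, x j) = φ i := by
  classical
  induction m with
  | zero => exact ⟨0, fun c => ⟨fun i => i.elim0, fun i => i.elim0, fun i => i.elim0, by simp,
      fun i => i.elim0⟩⟩
  | succ m ih =>
    obtain ⟨M, hM⟩ := ih
    obtain ⟨R, hR⟩ := vdw_finite κ M
    refine ⟨R, fun c => ?_⟩
    obtain ⟨a, d, ha, hd, hadM, k, hk⟩ := hR c
    obtain ⟨x, φ, hx, hxM, hφ⟩ := hM (fun s => c (d * s))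
    refine ⟨Fin.cons a (fun i => d * x i), Fin.cons k φ, ?_, ?_, ?_⟩
    · intro i
      induction i using Fin.cases with
      | zero => simpa using ha
      | succ i => simpa using ⟨hd, hx i⟩
    · rw [Fin.sum_univ_succ]
      simp only [Fin.cons_zero, Fin.cons_succ, ← mul_sum]
      exact (Nat.add_le_add_left (Nat.mul_le_mul_left _ hxM) _).trans hadM
    · intro i I hI
      have h0 : (0 : Fin (m + 1)) ∉ I := by
        intro h
        exact absurd (hI 0 h) (by simp)
      set I' : Finset (Fin m) := univ.filter (fun j => j.succ ∈ I) with hI'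
      have hII' : I = I'.map (Fin.succEmb m) := by
        ext j
        induction j using Fin.cases with
        | zero => simp [h0]
        | succ j => simp [hI']
      have hsum : ∑ j ∈ I, (Fin.cons a (fun i => d * x i) : Fin (m + 1) → ℕ) j =
          d * ∑ j ∈ I', x j := by
        rw [hII', sum_map, mul_sum]
        simp
      rw [hsum]
      induction i using Fin.cases with
      | zero =>
        simp only [Fin.cons_zero]
        refine hk _ (le_trans ?_ hxM)
        exact sum_le_univ_sum_of_nonneg (fun _ => Nat.zero_le _)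
      | succ i =>
        simp only [Fin.cons_succ]
        rw [← mul_add]
        apply hφ
        intro j hj
        have := hI j.succ (by rw [hI'] at hj; simpa using hj)
        simpa using this

/-- Folkman's theorem. -/
theorem folkman (κ : Type) [Finite κ] (r : ℕ) : ∃ R : ℕ, ∀ c : ℕ → κ, ∃ (x : ℕ → ℕ) (k : κ),
    (∀ i, 0 < x i) ∧ ∀ α : Finset ℕ, α.Nonempty → α ⊆ range r →
      ∑ i ∈ α, x i ≤ R ∧ c (∑ i ∈ α, x i) = k := by
  classical
  have := Fintype.ofFinite κ
  obtain ⟨R, hR⟩ := folk_min κ (Fintype.card κ * r + 1)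
  refine ⟨R, fun c => ?_⟩
  obtain ⟨x, φ, hx, hxR, hφ⟩ := hR c
  -- pigeonhole
  obtain ⟨k, hk⟩ : ∃ k : κ, r ≤ (univ.filter (fun i => φ i = k)).card := by
    by_contra hcon
    push Not at hcon
    have h1 : (univ : Finset (Fin (Fintype.card κ * r + 1))).card =
        ∑ k : κ, (univ.filter (fun i => φ i = k)).card :=
      card_eq_sum_card_fiberwise (fun i _ => mem_coe.2 (mem_univ _))
    have h2 : ∑ k : κ, (univ.filter (fun i => φ i = k)).card ≤ ∑ _k : κ, r :=
      sum_le_sum (fun k _ => (hcon k).le)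
    rw [← h1, card_univ, Fintype.card_fin, sum_const, card_univ, smul_eq_mul] at h2
    omega
  obtain ⟨J, hJ, hJr⟩ := exists_subset_card_eq hk
  let e := J.orderEmbOfFin hJr
  refine ⟨fun i => if h : i < r then x (e ⟨i, h⟩) else 1, k, ?_, ?_⟩
  · intro i
    dsimp only
    split_ifs
    · exact hx _
    · exact Nat.one_pos
  · intro α hα hαr
    -- the image of α
    set I : Finset (Fin (Fintype.card κ * r + 1)) :=
      α.attach.image (fun i => e ⟨i.1, mem_range.1 (hαr i.2)⟩) with hI
    have hsum : ∑ i ∈ α, (if h : i < r then x (e ⟨i, h⟩) else 1) = ∑ i ∈ I, x i := by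
      rw [hI, sum_image, ← sum_attach]
      · refine sum_congr rfl (fun i _ => ?_)
        rw [dif_pos (mem_range.1 (hαr i.2))]
      · intro i _ j _ hij
        have := e.injective hij
        simp only [Fin.mk.injEq] at this
        exact Subtype.ext this
    have hIne : I.Nonempty := by
      rw [hI]
      simpa using hα
    have hIJ : ∀ i ∈ I, φ i = k := by
      intro i hi
      rw [hI, mem_image] at hi
      obtain ⟨j, -, rfl⟩ := hi
      have := hJ (J.orderEmbOfFin_mem hJr ⟨j.1, mem_range.1 (hαr j.2)⟩)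
      exact (mem_filter.1 this).2
    rw [hsum]
    refine ⟨(sum_le_univ_sum_of_nonneg (fun _ => Nat.zero_le _)).trans hxR, ?_⟩
    have h3 := hφ (I.min' hIne) (I.erase (I.min' hIne)) (fun j hj => by
      rw [mem_erase] at hj
      exact lt_of_le_of_ne (min'_le _ _ hj.2) (Ne.symm hj.1))
    rw [add_sum_erase _ _ (min'_mem _ _), hIJ _ (min'_mem _ _)] at h3
    exact h3

end Pool.Agent.TH956
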