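import Pool.Agent.TH956.PET

set_option autoImplicit false

/-!
# A game version of the polynomial van der Waerden theorem along finite sums
-/

namespace Pool.Agent.TH956

open Finset Polynomial

section
variable {A : Type} [CommRing A]

/-- The conclusion for finitely many boards. -/
def Boards (ι : Type) (K N D M : ℕ) (A : Type) [CommRing A] (r M' : ℕ) : Prop :=
  ∀ (𝒢 : ι → Finset A[X]), (∀ b, (𝒢 b).card ≤ N) → (∀ b, ∀ p ∈ 𝒢 b, p.eval 0 = 0) →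
    (∀ b, ∀ p ∈ 𝒢 b, p.natDegree ≤ D) → ∀ (y : ι → ℕ → A) (V : Finset A), V.card ≤ M →
      ∃ V' : Finset A, V'.card ≤ M' ∧ ∀ (κ : Type) [Finite κ], Nat.card κ ≤ K →
        ∀ Ψ : ι → A → κ, ∃ w ∈ V', ∃ τ : ι → Finset ℕ, ∀ b, (τ b).Nonempty ∧ τ b ⊆ range r ∧
          ∀ v ∈ V, ∀ g ∈ 𝒢 b, Ψ b (w + v + g.eval (∑ i ∈ τ b, y b i)) = Ψ b (w + v)

theorem boards_fin (n K N D M : ℕ) : ∃ r M', Boards (Fin n) K N D M A r M' := by
  classical
  induction n with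
  | zero =>
    refine ⟨0, 1, fun 𝒢 _ _ _ y V _ => ⟨{0}, by simp, fun κ _ _ Ψ => ⟨0, by simp,
      fun i => i.elim0, fun i => i.elim0⟩⟩⟩
  | succ n ih =>
    obtain ⟨r₁, M₁, h₁⟩ := ih
    obtain ⟨r₀, M₀, h₀⟩ := ipvdw (A := A) (K ^ (M₁ * M)) N D
    refine ⟨max r₀ r₁, M₀ * M₁, ?_⟩
    intro 𝒢 hN h0 hD y V hV
    obtain ⟨V₁, hV₁, hV₁'⟩ := h₁ (fun b => 𝒢 b.succ) (fun b => hN _) (fun b => h0 _)
      (fun b => hD _) (fun b => y b.succ) V hV
    obtain ⟨V₀, hV₀, hV₀'⟩ := h₀ (𝒢 0) (hN 0) (h0 0) (hD 0) (y 0)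
    refine ⟨(V₀ ×ˢ V₁).image (fun x => x.1 + x.2), ?_, ?_⟩
    · refine card_image_le.trans ?_
      rw [card_product]
      exact Nat.mul_le_mul hV₀ hV₁
    intro κ _ hκ Ψ
    have hκne : Nonempty κ := ⟨Ψ 0 0⟩
    have hK1 : 1 ≤ K := le_trans (Nat.card_pos) hκ
    set W : Finset A := (V₁ ×ˢ V).image (fun x => x.1 + x.2) with hW
    have hWcard : W.card ≤ M₁ * M := by
      refine card_image_le.trans ?_
      rw [card_product]
      exact Nat.mul_le_mul hV₁ hV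
    obtain ⟨z₀, hz₀, α, hα, hαr, hp⟩ := hV₀' (W → κ) (by
      rw [Nat.card_fun]
      have h1 : Nat.card W = W.card := by simp
      rw [h1]
      exact (Nat.pow_le_pow_left hκ _).trans (Nat.pow_le_pow_right hK1 hWcard))
      (fun x u => Ψ 0 (x + u))
    obtain ⟨w, hw, τ, hτ⟩ := hV₁' κ hκ (fun b z => Ψ b.succ (z₀ + z))
    refine ⟨z₀ + w, mem_image.2 ⟨(z₀, w), mem_product.2 ⟨hz₀, hw⟩, rfl⟩, Fin.cons α τ, ?_⟩
    intro b
    induction b using Fin.cases with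
    | zero =>
      simp only [Fin.cons_zero]
      refine ⟨hα, hαr.trans (range_subset_range.2 (le_max_left _ _)), fun v hv g hg => ?_⟩
      have h2 := congrFun (hp g hg) ⟨w + v, mem_image.2 ⟨(w, v), mem_product.2 ⟨hw, hv⟩, rfl⟩⟩
      simp only at h2
      rw [add_assoc z₀ w v, ← h2]
      congr 1
      ring
    | succ b =>
      simp only [Fin.cons_succ]
      refine ⟨(hτ b).1, (hτ b).2.1.trans (range_subset_range.2 (le_max_right _ _)),
        fun v hv g hg => ?_⟩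
      have h2 := (hτ b).2.2 v hv g hg
      simp only [← add_assoc] at h2
      exact h2

theorem boards (ι : Type) [Finite ι] (K N D M : ℕ) : ∃ r M', Boards ι K N D M A r M' := by
  obtain ⟨n, ⟨e⟩⟩ := Finite.exists_equiv_fin ι
  obtain ⟨r, M', h⟩ := boards_fin (A := A) n K N D M
  refine ⟨r, M', ?_⟩
  intro 𝒢 hN h0 hD y V hV
  obtain ⟨V', hV', h'⟩ := h (fun b => 𝒢 (e.symm b)) (fun b => hN _) (fun b => h0 _)
    (fun b => hD _) (fun b => y (e.symm b)) V hV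
  refine ⟨V', hV', fun κ _ hκ Ψ => ?_⟩
  obtain ⟨w, hw, τ, hτ⟩ := h' κ hκ (fun b => Ψ (e.symm b))
  refine ⟨w, hw, fun b => τ (e b), fun b => ?_⟩
  have := hτ (e b)
  simpa using this

/-- The conditions along a history. -/
def Good {κ : Type} : (List A → A → κ) → (List A → Finset A[X]) → List A → A → Prop
  | _, _, [], _ => True
  | Ψ, 𝒢, (u :: t), z => (∀ g ∈ 𝒢 [], Ψ [] (z + g.eval u) = Ψ [] z) ∧
      Good (fun s => Ψ (u :: s)) (fun s => 𝒢 (u :: s)) t z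

/-- The set `B` contains the outcomes of a strategy of the player that offers the sequences. -/
def IsTree : List ℕ → Set (List A) → Prop
  | [], B => [] ∈ B
  | (r :: rs), B => ∃ y : ℕ → A, ∀ α : Finset ℕ, α.Nonempty → α ⊆ range r →
      IsTree rs {t | (∑ i ∈ α, y i) :: t ∈ B}

/-- The player that picks the finite sums can force the outcome to lie in `P`. -/
def SW : List ℕ → (List A → Prop) → Prop
  | [], P => P []
  | (r :: rs), P => ∀ y : ℕ → A, ∃ α : Finset ℕ, α.Nonempty ∧ α ⊆ range r ∧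
      SW rs (fun t => P ((∑ i ∈ α, y i) :: t))

theorem isTree_of_not_SW (rs : List ℕ) (P : List A → Prop) (h : ¬ SW rs P) :
    IsTree rs {t | ¬ P t} := by
  induction rs generalizing P with
  | nil => exact h
  | cons r rs ih =>
    simp only [SW] at h
    push Not at h
    obtain ⟨y, hy⟩ := h
    exact ⟨y, fun α hα hαr => ih _ (hy α hα hαr)⟩

instance finite_subs (r : ℕ) : Finite {α : Finset ℕ // α.Nonempty ∧ α ⊆ range r} := by
  have h : ({α : Finset ℕ | α.Nonempty ∧ α ⊆ range r} : Set (Finset ℕ)).Finite := by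
    apply Set.Finite.subset (range r).powerset.finite_toSet
    intro α hα
    simp only [coe_powerset, Set.mem_preimage, Set.mem_powerset_iff, coe_subset]
    exact hα.2
  exact h

variable (A) in
theorem game_boards (D : ℕ) (m : ℕ) : ∀ (ι : Type) [Finite ι] (K N M : ℕ), ∃ rs : List ℕ,
    rs.length = m ∧ ∀ (κ : Type) [Finite κ], Nat.card κ ≤ K → ∀ (Ψ : ι → List A → A → κ)
      (𝒢 : ι → List A → Finset A[X]), (∀ b t, (𝒢 b t).card ≤ N) →
        (∀ b t, ∀ p ∈ 𝒢 b t, p.eval 0 = 0) → (∀ b t, ∀ p ∈ 𝒢 b t, p.natDegree ≤ D) →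
          ∀ B : ι → Set (List A), (∀ b, IsTree rs (B b)) → ∀ V : Finset A, V.card ≤ M →
            ∃ z : A, ∃ t : ι → List A, ∀ b, t b ∈ B b ∧ ∀ v ∈ V, Good (Ψ b) (𝒢 b) (t b) (z + v) := by
  classical
  induction m with
  | zero =>
    intro ι _ K N M
    refine ⟨[], rfl, ?_⟩
    intro κ _ hκ Ψ 𝒢 hN h0 hD B hB V hV
    exact ⟨0, fun _ => [], fun b => ⟨hB b, fun v _ => trivial⟩⟩
  | succ m ih =>
    intro ι _ K N M
    obtain ⟨r, M', hb⟩ := boards (A := A) ι K N D M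
    obtain ⟨rs, hrs, h⟩ := ih (ι × {α : Finset ℕ // α.Nonempty ∧ α ⊆ range r}) K N (M' * M)
    refine ⟨r :: rs, by simp [hrs], ?_⟩
    intro κ _ hκ Ψ 𝒢 hN h0 hD B hB V hV
    choose y hy using hB
    obtain ⟨V', hV', hV''⟩ := hb (fun b => 𝒢 b []) (fun b => hN b []) (fun b => h0 b [])
      (fun b => hD b []) y V hV
    obtain ⟨z, t, ht⟩ := h κ hκ (fun b s => Ψ b.1 ((∑ i ∈ b.2.1, y b.1 i) :: s))
      (fun b s => 𝒢 b.1 ((∑ i ∈ b.2.1, y b.1 i) :: s)) (fun b s => hN _ _) (fun b s => h0 _ _)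
      (fun b s => hD _ _) (fun b => {t | (∑ i ∈ b.2.1, y b.1 i) :: t ∈ B b.1})
      (fun b => hy b.1 b.2.1 b.2.2.1 b.2.2.2) ((V' ×ˢ V).image (fun x => x.1 + x.2)) (by
        refine card_image_le.trans ?_
        rw [card_product]
        exact Nat.mul_le_mul hV' hV)
    obtain ⟨w, hw, τ, hτ⟩ := hV'' κ hκ (fun b x => Ψ b [] (z + x))
    refine ⟨z + w, fun b => (∑ i ∈ τ b, y b i) :: t (b, ⟨τ b, (hτ b).1, (hτ b).2.1⟩),
      fun b => ⟨(ht (b, ⟨τ b, (hτ b).1, (hτ b).2.1⟩)).1, fun v hv => ⟨?_, ?_⟩⟩⟩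
    · intro g hg
      have h2 := (hτ b).2.2 v hv g hg
      simp only [← add_assoc] at h2
      exact h2
    · have h3 := (ht (b, ⟨τ b, (hτ b).1, (hτ b).2.1⟩)).2 (w + v) (mem_image.2 ⟨(w, v),
        mem_product.2 ⟨hw, hv⟩, rfl⟩)
      rw [← add_assoc] at h3
      exact h3

/-- The game lemma. -/
theorem game (D m K N : ℕ) : ∃ rs : List ℕ, rs.length = m ∧ ∀ (κ : Type) [Finite κ],
    Nat.card κ ≤ K → ∀ (Ψ : List A → A → κ) (𝒢 : List A → Finset A[X]),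
      (∀ t, (𝒢 t).card ≤ N) → (∀ t, ∀ p ∈ 𝒢 t, p.eval 0 = 0) →
        (∀ t, ∀ p ∈ 𝒢 t, p.natDegree ≤ D) → SW rs (fun t => ∃ z, Good Ψ 𝒢 t z) := by
  classical
  obtain ⟨rs, hrs, h⟩ := game_boards A D m Unit K N 1
  refine ⟨rs, hrs, fun κ _ hκ Ψ 𝒢 hN h0 hD => ?_⟩
  by_contra hcon
  obtain ⟨z, t, ht⟩ := h κ hκ (fun _ => Ψ) (fun _ => 𝒢) (fun _ => hN) (fun _ => h0)
    (fun _ => hD) (fun _ => {t | ¬ ∃ z, Good Ψ 𝒢 t z}) (fun _ => isTree_of_not_SW _ _ hcon)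
    {0} (by simp)
  exact (ht ()).1 ⟨z + 0, (ht ()).2 0 (by simp)⟩

end

end Pool.Agent.TH956
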