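import Pool.Agent.TH956.Game
import Pool.Agent.TH956.Folk

set_option autoImplicit false
set_option linter.unusedSectionVars false

/-!
# The construction of the letters
-/

namespace Pool.Agent.TH956

open Finset Polynomial

/-- Folkman's theorem in the form that is used. -/
def Fk (n R r : ℕ) : Prop := 1 ≤ R ∧ ∀ bad : ℕ → ℕ → Prop,
  (∀ s, 1 ≤ s → s ≤ R → ∃ j < n, bad j s) → ∃ j < n, ∃ x : ℕ → ℕ,
    ∀ α : Finset ℕ, α.Nonempty → α ⊆ range r → bad j (∑ i ∈ α, x i)

theorem exists_fk (n : ℕ) (hn : 0 < n) (r : ℕ) : ∃ R, Fk n R r := by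
  classical
  obtain ⟨R, hR⟩ := folkman (Fin n) r
  refine ⟨max R 1, le_max_right _ _, fun bad hbad => ?_⟩
  obtain ⟨x, k, hx, hk⟩ := hR (fun s => if h : ∃ j, j < n ∧ bad j s then
    ⟨h.choose, h.choose_spec.1⟩ else ⟨0, hn⟩)
  refine ⟨k, k.2, x, fun α hα hαr => ?_⟩
  obtain ⟨h1, h2⟩ := hk α hα hαr
  have h3 : 1 ≤ ∑ i ∈ α, x i := by
    obtain ⟨i, hi⟩ := hα
    exact (hx i).trans_le (single_le_sum (fun _ _ => Nat.zero_le _) hi)
  have h4 := hbad _ h3 (h1.trans (le_max_left _ _))
  rw [dif_pos h4] at h2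
  rw [← h2]
  exact h4.choose_spec.2

/-- The downward choice of the bounds. -/
theorem exists_R (n : ℕ) (G : ℕ → ℕ → List ℕ) (F : ℕ → ℕ → Prop) (hF : ∀ r, ∃ R, F R r) :
    ∃ R : ℕ → ℕ, ∀ j < n, ∃ r, F (R j) r ∧
      ∀ j', j < j' → j' < n → (G j' (R j')).getD j 0 ≤ r := by
  classical
  have key : ∀ d ≤ n, ∃ R : ℕ → ℕ, ∀ j < n, n - d ≤ j → ∃ r, F (R j) r ∧
      ∀ j', j < j' → j' < n → (G j' (R j')).getD j 0 ≤ r := by
    intro d
    induction d with
    | zero =>
      intro _
      refine ⟨fun _ => 0, fun j hj hj' => ?_⟩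
      omega
    | succ d ih =>
      intro hd
      obtain ⟨R, hR⟩ := ih (by omega)
      set j₀ := n - (d + 1) with hj₀
      obtain ⟨R₀, hR₀⟩ := hF ((range n).sup (fun j' => (G j' (R j')).getD j₀ 0))
      refine ⟨Function.update R j₀ R₀, fun j hj hj' => ?_⟩
      by_cases h : j = j₀
      · refine ⟨_, by rw [h, Function.update_self]; exact hR₀, fun j' h1 h2 => ?_⟩
        rw [Function.update_of_ne (by omega), h]
        exact le_sup (f := fun j' => (G j' (R j')).getD j₀ 0) (mem_range.2 h2)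
      · obtain ⟨r, hr, hr'⟩ := hR j hj (by omega)
        refine ⟨r, by rwa [Function.update_of_ne h], fun j' h1 h2 => ?_⟩
        rw [Function.update_of_ne (by omega)]
        exact hr' j' h1 h2
  obtain ⟨R, hR⟩ := key n le_rfl
  exact ⟨R, fun j hj => hR j hj (by omega)⟩

theorem Good.spec {A : Type} [CommRing A] {κ : Type} (t : List A) :
    ∀ (Ψ : List A → A → κ) (𝒢 : List A → Finset A[X]) (z : A), Good Ψ 𝒢 t z →
      ∀ k < t.length, ∀ g ∈ 𝒢 (t.take k),
        Ψ (t.take k) (z + g.eval (t.getD k 1)) = Ψ (t.take k) z := by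
  induction t with
  | nil => intro Ψ 𝒢 z _ k hk; simp at hk
  | cons u t ih =>
    intro Ψ 𝒢 z h k hk g hg
    cases k with
    | zero => exact h.1 g hg
    | succ k => exact ih _ _ z h.2 k (by simpa using hk) g hg

section
variable {F : Type} [Field F] [CharZero F]

/-- The product of the letters with index in `B`. -/
noncomputable def pr (t : List F) (B : Finset ℕ) : F := ∏ i ∈ B, t.getD i 1

theorem pr_congr {t t' : List F} {B : Finset ℕ} (h : ∀ i ∈ B, t.getD i 1 = t'.getD i 1) :
    pr t B = pr t' B := prod_congr rfl h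

theorem pr_ne {t : List F} {B : Finset ℕ} (h : ∀ i, t.getD i 1 ≠ 0) : pr t B ≠ 0 :=
  prod_ne_zero_iff.2 fun i _ => h i

/-- The colouring of a level. -/
noncomputable def Ps {κ : Type} (c : F → κ) (n R : ℕ) (t : List F) (z : F) :
    ({B : Finset ℕ // B ⊆ range n} × Fin R) → κ :=
  fun x => c (pr t x.1.1 * z * (((x.2 : ℕ) + 1 : ℕ) : F))

/-- One polynomial of a level. -/
noncomputable def gp (t : List F) (B B' : Finset ℕ) (f : F[X]) (s : ℕ) : F[X] :=
  C (1 / (pr t B * ((s + 1 : ℕ) : F))) * f.comp (C (pr t B') * X)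

theorem gp_eval (t : List F) (B B' : Finset ℕ) (f : F[X]) (s : ℕ) (u : F) :
    (gp t B B' f s).eval u = 1 / (pr t B * ((s + 1 : ℕ) : F)) * f.eval (pr t B' * u) := by
  simp [gp]

open Classical in
/-- The polynomials of a level. -/
noncomputable def Gs (P : Finset F[X]) (n R : ℕ) (t : List F) : Finset F[X] :=
  (((range n).powerset ×ˢ (range n).powerset) ×ˢ (P ×ˢ range R)).image
    (fun x => gp t x.1.1 x.1.2 x.2.1 x.2.2)

theorem Gs_card (P : Finset F[X]) (n R : ℕ) (t : List F) :
    (Gs P n R t).card ≤ (2 ^ n * 2 ^ n) * (P.card * R) := by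
  classical
  unfold Gs
  refine card_image_le.trans ?_
  simp [card_product]

theorem mem_Gs {P : Finset F[X]} {n R : ℕ} {t : List F} {g : F[X]} (hg : g ∈ Gs P n R t) :
    ∃ B B', ∃ f ∈ P, ∃ s, g = gp t B B' f s := by
  classical
  unfold Gs at hg
  obtain ⟨x, hx, rfl⟩ := mem_image.1 hg
  simp only [mem_product] at hx
  exact ⟨_, _, _, hx.2.1, _, rfl⟩

theorem gp_mem_Gs {P : Finset F[X]} {n R : ℕ} {t : List F} {B B' : Finset ℕ} {f : F[X]} {s : ℕ}
    (hB : B ⊆ range n) (hB' : B' ⊆ range n) (hf : f ∈ P) (hs : s < R) :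
    gp t B B' f s ∈ Gs P n R t := by
  classical
  unfold Gs
  refine mem_image.2 ⟨((B, B'), (f, s)), ?_, rfl⟩
  simp only [mem_product, mem_powerset, mem_range]
  exact ⟨⟨hB, hB'⟩, hf, hs⟩

instance finite_subsets (n : ℕ) : Finite {B : Finset ℕ // B ⊆ range n} := by
  have h : ({α : Finset ℕ | α ⊆ range n} : Set (Finset ℕ)).Finite := by
    apply Set.Finite.subset (range n).powerset.finite_toSet
    intro α hα
    simp only [coe_powerset, Set.mem_preimage, Set.mem_powerset_iff, coe_subset]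
    exact hα
  exact h

/-- The state of the construction. -/
structure St {κ : Type} (c : F → κ) (P : Finset F[X]) (n : ℕ) (R : ℕ → ℕ) (rs : ℕ → List ℕ)
    (k : ℕ) (u : List F) : Prop where
  len : u.length = k
  ne : ∀ i, u.getD i 1 ≠ 0
  val : ∀ l < k, ∀ k' < l, ∀ B ⊆ range k', ∀ B' ⊆ range k', ∀ f ∈ P,
    c (pr u B * u.getD l 1 + f.eval (pr u B' * u.getD k' 1)) = c (pr u B * u.getD l 1)
  fut : ∀ j, k ≤ j → j < n → SW ((rs j).drop k)
    (fun t => ∃ z, Good (Ps c n (R j)) (Gs P n (R j)) (u ++ t) z)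

theorem getD_append_lt (u : List F) (a : F) (i : ℕ) (hi : i < u.length) :
    (u ++ [a]).getD i 1 = u.getD i 1 := by
  rw [List.getD_append _ _ _ _ hi]

theorem getD_append_len (u : List F) (a : F) : (u ++ [a]).getD u.length 1 = a := by
  rw [List.getD_append_right _ _ _ _ le_rfl]
  simp

theorem getD_take_lt (u : List F) (k i : ℕ) (hi : i < k) : (u.take k).getD i 1 = u.getD i 1 := by
  simp only [List.getD_eq_getElem?_getD]
  rw [List.getElem?_take_of_lt hi]

theorem St.step {κ : Type} {c : F → κ} {P : Finset F[X]} {n : ℕ} {R : ℕ → ℕ} {rs : ℕ → List ℕ}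
    (hc : ∀ x, c x = c 0 → x = 0) (hX : X ∈ P) (hlen : ∀ j < n, (rs j).length = j)
    (hR : ∀ j < n, ∃ r, Fk n (R j) r ∧ ∀ j', j < j' → j' < n → (rs j').getD j 0 ≤ r)
    {k : ℕ} {u : List F} (h : St c P n R rs k u) (hk : k < n) :
    ∃ u', St c P n R rs (k + 1) u' := by
  classical
  obtain ⟨r, ⟨hR1, hFk⟩, hr⟩ := hR k hk
  -- the base point
  obtain ⟨z, hz0, hz⟩ : ∃ z, z ≠ 0 ∧ Good (Ps c n (R k)) (Gs P n (R k)) u z := by
    have h1 := h.fut k le_rfl hk
    rw [List.drop_of_length_le (hlen k hk).le] at h1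
    simp only [SW, List.append_nil] at h1
    obtain ⟨z, hz⟩ := h1
    by_cases hk0 : k = 0
    · have hu : u = [] := List.eq_nil_of_length_eq_zero (by rw [h.len, hk0])
      subst hu
      exact ⟨1, one_ne_zero, trivial⟩
    · refine ⟨z, ?_, hz⟩
      rintro rfl
      have h2 := Good.spec u _ _ _ hz 0 (by rw [h.len]; omega) (gp (u.take 0) ∅ ∅ X 0)
        (gp_mem_Gs (by simp) (by simp) hX (by omega))
      have h3 := congrFun h2 (⟨∅, by simp⟩, ⟨0, by omega⟩)
      simp only [Ps, gp_eval, pr, prod_empty, eval_X] at h3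
      have h4 := hc (u.getD 0 1) (by
        have e1 : (1 : F) * (0 + 1 / (1 * ((0 + 1 : ℕ) : F)) * (1 * u.getD 0 1)) *
            ((0 + 1 : ℕ) : F) = u.getD 0 1 := by norm_num
        have e2 : (1 : F) * 0 * ((0 + 1 : ℕ) : F) = 0 := by norm_num
        rw [e1, e2] at h3
        exact h3)
      exact h.ne 0 h4
  -- the multiplier
  obtain ⟨s, hs1, hsR, hs⟩ : ∃ s, 1 ≤ s ∧ s ≤ R k ∧ ∀ j, k + 1 ≤ j → j < n →
      SW ((rs j).drop (k + 1)) (fun t => ∃ z', Good (Ps c n (R j)) (Gs P n (R j))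
        ((u ++ [z * (s : F)]) ++ t) z') := by
    by_contra hcon
    push Not at hcon
    obtain ⟨j, hj, x, hx⟩ := hFk (fun j s => k + 1 ≤ j ∧ ¬ SW ((rs j).drop (k + 1))
      (fun t => ∃ z', Good (Ps c n (R j)) (Gs P n (R j)) ((u ++ [z * (s : F)]) ++ t) z')) (by
        intro s h1 h2
        obtain ⟨j, h3, h4, h5⟩ := hcon s h1 h2
        exact ⟨j, h4, h3, h5⟩)
    have hr0 : ∀ j', k + 1 ≤ j' → j' < n → (rs j').drop k =
        (rs j').getD k 0 :: (rs j').drop (k + 1) := by
      intro j' h1 h2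
      have h3 : k < (rs j').length := by rw [hlen j' h2]; omega
      rw [List.drop_eq_getElem_cons h3, List.getD_eq_getElem _ _ h3]
    by_cases hkj : k + 1 ≤ j
    · have h1 := h.fut j (by omega) hj
      rw [hr0 j hkj hj] at h1
      obtain ⟨α, hα, hαr, h2⟩ := h1 (fun i => z * (x i : F))
      refine (hx α hα (hαr.trans (range_subset_range.2 (hr j (by omega) hj)))).2 ?_
      have h3 : ∑ i ∈ α, z * (x i : F) = z * ((∑ i ∈ α, x i : ℕ) : F) := by
        rw [Nat.cast_sum, mul_sum]
      rw [h3] at h2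
      simpa only [List.append_assoc, List.singleton_append] using h2
    · -- then there are no future letters in the list of `j`; use emptiness
      by_cases hr1 : r = 0
      · -- no information from Folkman's theorem; take any future letter
        obtain ⟨j', h3, h4, h5⟩ := hcon 1 le_rfl hR1
        have h1 := h.fut j' (by omega) h4
        rw [hr0 j' h3 h4] at h1
        obtain ⟨α, hα, hαr, h2⟩ := h1 (fun i => 0)
        have h6 := hr j' (by omega) h4
        rw [hr1] at h6
        have h7 := hαr.trans (range_subset_range.2 h6)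
        simp only [range_zero, subset_empty] at h7
        exact hα.ne_empty h7
      · exact hkj (hx {0} (by simp) (by
          intro i hi
          rw [mem_singleton] at hi
          subst hi
          exact mem_range.2 (Nat.pos_of_ne_zero hr1))).1
  have hs0 : (s : F) ≠ 0 := by
    have : s ≠ 0 := by omega
    exact_mod_cast this
  refine ⟨u ++ [z * (s : F)], ?_, ?_, ?_, ?_⟩
  · simp [h.len]
  · intro i
    rcases lt_trichotomy i u.length with h1 | h1 | h1
    · rw [getD_append_lt _ _ _ h1]; exact h.ne i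
    · rw [h1, getD_append_len]; exact mul_ne_zero hz0 hs0
    · rw [List.getD_eq_default _ _ (by simp; omega)]
      exact one_ne_zero
  · intro l hl k' hk' B hB B' hB' f hf
    have hlu : l ≤ u.length := by rw [h.len]; omega
    have hB1 : pr (u ++ [z * (s : F)]) B = pr u B := pr_congr fun i hi =>
      getD_append_lt _ _ _ (by have := mem_range.1 (hB hi); omega)
    have hB2 : pr (u ++ [z * (s : F)]) B' = pr u B' := pr_congr fun i hi =>
      getD_append_lt _ _ _ (by have := mem_range.1 (hB' hi); omega)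
    rw [hB1, hB2, getD_append_lt u _ k' (by omega)]
    by_cases hlk : l < k
    · rw [getD_append_lt u _ l (by rw [h.len]; omega)]
      exact h.val l hlk k' hk' B hB B' hB' f hf
    · have hlk' : l = u.length := by rw [h.len]; omega
      rw [hlk', getD_append_len]
      have hBn : B ⊆ range n := hB.trans (range_subset_range.2 (by omega))
      have hBn' : B' ⊆ range n := hB'.trans (range_subset_range.2 (by omega))
      have h2 := Good.spec u _ _ _ hz k' (by omega) (gp (u.take k') B B' f (s - 1))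
        (gp_mem_Gs hBn hBn' hf (by omega))
      have h3 := congrFun h2 (⟨B, hBn⟩, ⟨s - 1, by omega⟩)
      simp only [Ps, gp_eval] at h3
      have e1 : pr (u.take k') B = pr u B := pr_congr fun i hi =>
        getD_take_lt _ _ _ (mem_range.1 (hB hi))
      have e2 : pr (u.take k') B' = pr u B' := pr_congr fun i hi =>
        getD_take_lt _ _ _ (mem_range.1 (hB' hi))
      have e3 : s - 1 + 1 = s := by omega
      rw [e1, e2, e3] at h3
      have hpr : pr u B ≠ 0 := pr_ne h.ne
      have e4 : pr u B * (z * (s : F)) = pr u B * z * s := by ring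
      rw [e4, ← h3]
      congr 1
      field_simp
  · intro j hj hjn
    exact hs j hj hjn

/-- The letters. -/
theorem letters {κ : Type} [Finite κ] (c : F → κ) (hc : ∀ x, c x = c 0 → x = 0)
    (P : Finset F[X]) (hP : ∀ f ∈ P, f.eval 0 = 0) (hX : X ∈ P) (n : ℕ) :
    ∃ u : ℕ → F, (∀ i, u i ≠ 0) ∧ ∀ l < n, ∀ k < l, ∀ B ⊆ range k, ∀ B' ⊆ range k, ∀ f ∈ P,
      c ((∏ i ∈ B, u i) * u l + f.eval ((∏ i ∈ B', u i) * u k)) =
        c ((∏ i ∈ B, u i) * u l) := by
  classical
  rcases Nat.eq_zero_or_pos n with rfl | hn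
  · exact ⟨fun _ => 1, fun _ => one_ne_zero, fun l hl => absurd hl (by omega)⟩
  -- the games
  have hG : ∀ j R : ℕ, ∃ rs : List ℕ, rs.length = j ∧
      SW rs (fun t => ∃ z, Good (Ps c n R) (Gs P n R) t z) := by
    intro j R
    obtain ⟨rs, hrs, h⟩ := game (A := F) (P.sup natDegree) j
      (Nat.card (({B : Finset ℕ // B ⊆ range n} × Fin R) → κ)) ((2 ^ n * 2 ^ n) * (P.card * R))
    refine ⟨rs, hrs, h _ le_rfl _ _ (fun t => Gs_card _ _ _ _) ?_ ?_⟩
    · intro t p hp
      obtain ⟨B, B', f, hf, s, rfl⟩ := mem_Gs hp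
      rw [gp_eval, mul_zero, hP f hf, mul_zero]
    · intro t p hp
      obtain ⟨B, B', f, hf, s, rfl⟩ := mem_Gs hp
      unfold gp
      refine (natDegree_C_mul_le _ _).trans ?_
      refine natDegree_comp_le.trans ?_
      have h1 : (C (pr t B') * X : F[X]).natDegree ≤ 1 :=
        (natDegree_C_mul_le _ _).trans natDegree_X_le
      calc f.natDegree * (C (pr t B') * X : F[X]).natDegree ≤ f.natDegree * 1 :=
            Nat.mul_le_mul_left _ h1
        _ = f.natDegree := mul_one _
        _ ≤ P.sup natDegree := le_sup (f := natDegree) hf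
  choose G hGlen hG using hG
  obtain ⟨R, hR⟩ := exists_R n G (Fk n) (exists_fk n hn)
  have hall : ∀ k ≤ n, ∃ u, St c P n R (fun j => G j (R j)) k u := by
    intro k
    induction k with
    | zero =>
      intro _
      refine ⟨[], rfl, fun i => by simp, fun l hl => absurd hl (by omega), fun j _ hj => ?_⟩
      simpa using hG j (R j)
    | succ k ih =>
      intro hk
      obtain ⟨u, hu⟩ := ih (by omega)
      exact hu.step hc hX (fun j _ => hGlen j (R j)) hR (by omega)
  obtain ⟨u, hu⟩ := hall n le_rfl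
  exact ⟨fun i => u.getD i 1, hu.ne, fun l hl k hk B hB B' hB' f hf =>
    hu.val l hl k hk B hB B' hB' f hf⟩

end

end Pool.Agent.TH956
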