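import Pool.Agent.TH956.Letters
import Pool.Agent.Helper850.RC.P_ramsey

set_option autoImplicit false
set_option linter.unusedSectionVars false

/-!
# Monochromatic patterns `x, y, xy, x + f(y)` in fields of characteristic zero
-/

namespace Pool.Agent.TH956

open Finset Polynomial

/-- Ramsey's theorem for `t`-subsets. -/
theorem ram (κ : Type) [Finite κ] (t m : ℕ) : ∃ N : ℕ, ∀ S : Finset ℕ, N ≤ S.card →
    ∀ χ : Finset ℕ → κ, ∃ T ⊆ S, T.card = m ∧
      ∀ B ⊆ T, ∀ B' ⊆ T, B.card = t → B'.card = t → χ B = χ B' := by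
  classical
  obtain ⟨C, hC⟩ := RC.ramsey t
  obtain ⟨q, ⟨e⟩⟩ := Finite.exists_equiv_fin κ
  obtain ⟨a, ha⟩ := hC q
  refine ⟨RC.tow C (a * (m + 1)), fun S hS χ => ?_⟩
  obtain ⟨T, hTS, hTm, hT⟩ := ha m S hS (fun x => e (χ (univ.image x)))
  refine ⟨T, hTS, hTm, fun B hB B' hB' hBt hBt' => ?_⟩
  have key : ∀ B : Finset ℕ, ∀ h : B.card = t, univ.image (B.orderEmbOfFin h) = B := by
    intro B h
    apply eq_of_subset_of_card_le
    · intro i hi
      obtain ⟨j, -, rfl⟩ := mem_image.1 hi
      exact B.orderEmbOfFin_mem h j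
    · rw [card_image_of_injective _ (B.orderEmbOfFin h).injective, card_univ, Fintype.card_fin, h]
  have h1 := hT (B.orderEmbOfFin hBt) (B'.orderEmbOfFin hBt') (B.orderEmbOfFin hBt).strictMono
    (B'.orderEmbOfFin hBt').strictMono (fun l => hB (B.orderEmbOfFin_mem hBt l))
    (fun l => hB' (B'.orderEmbOfFin_mem hBt' l))
  simp only [key] at h1
  exact e.injective h1

/-- Ramsey's theorem for all sizes at most `s`. -/
theorem ram_all (κ : Type) [Finite κ] (s m : ℕ) : ∃ N : ℕ, ∀ S : Finset ℕ, N ≤ S.card →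
    ∀ χ : Finset ℕ → κ, ∃ T ⊆ S, T.card = m ∧
      ∀ B ⊆ T, ∀ B' ⊆ T, B.card = B'.card → B.card ≤ s → χ B = χ B' := by
  induction s with
  | zero =>
    refine ⟨m, fun S hS χ => ?_⟩
    obtain ⟨T, hT, hTm⟩ := exists_subset_card_eq hS
    refine ⟨T, hT, hTm, fun B _ B' _ h h0 => ?_⟩
    have h1 : B = ∅ := card_eq_zero.1 (by omega)
    have h2 : B' = ∅ := card_eq_zero.1 (by omega)
    rw [h1, h2]
  | succ s ih =>
    obtain ⟨N, hN⟩ := ih
    obtain ⟨N', hN'⟩ := ram κ (s + 1) N
    refine ⟨N', fun S hS χ => ?_⟩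
    obtain ⟨T', hT', hTN, hT'h⟩ := hN' S hS χ
    obtain ⟨T, hT, hTm, hTh⟩ := hN T' hTN.ge χ
    refine ⟨T, hT.trans hT', hTm, fun B hB B' hB' h hle => ?_⟩
    by_cases h1 : B.card ≤ s
    · exact hTh B hB B' hB' h h1
    · exact hT'h B (hB.trans hT) B' (hB'.trans hT) (by omega) (by omega)

/-- Schur's theorem, finite version. -/
theorem schur (κ : Type) [Finite κ] : ∃ R : ℕ, ∀ c : ℕ → κ, ∃ a b : ℕ, 0 < a ∧ 0 < b ∧
    a + b ≤ R ∧ c a = c b ∧ c (a + b) = c b := by
  classical
  obtain ⟨R, hR⟩ := folkman κ 2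
  refine ⟨R, fun c => ?_⟩
  obtain ⟨x, k, hx, hk⟩ := hR c
  have h0 := hk {0} (by simp) (by intro i hi; simp at hi; subst hi; simp)
  have h1 := hk {1} (by simp) (by intro i hi; simp at hi; subst hi; simp)
  have h2 := hk {0, 1} (by simp) (by
    intro i hi
    simp only [mem_insert, mem_singleton] at hi
    rw [mem_range]
    omega)
  rw [sum_pair (by norm_num)] at h2
  simp only [sum_singleton] at h0 h1
  exact ⟨x 0, x 1, hx 0, hx 1, h2.1, by rw [h0.2, h1.2], by rw [h2.2, h1.2]⟩

section
variable {F : Type} [Field F] [CharZero F]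

theorem pattern_aux {κ : Type} [Finite κ] (c : F → κ) (hc : ∀ x, c x = c 0 → x = 0)
    (P : Finset F[X]) (hP : ∀ f ∈ P, f.eval 0 = 0) (hX : X ∈ P) :
    ∃ x y : F, x ≠ 0 ∧ y ≠ 0 ∧ c y = c x ∧ c (x * y) = c x ∧
      ∀ f ∈ P, c (x + f.eval y) = c x := by
  classical
  obtain ⟨s, hs⟩ := schur κ
  obtain ⟨n, hn⟩ := ram_all κ s s
  obtain ⟨u, hu0, hu⟩ := letters c hc P hP hX n
  obtain ⟨T, hTn, hTs, hT⟩ := hn (range n) (by simp) (fun B => c (∏ i ∈ B, u i))
  -- the colour of a product depends only on the number of factors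
  let e := T.orderEmbOfFin hTs
  let h : ℕ → ℕ := fun i => if hi : i < s then e ⟨i, hi⟩ else 0
  have hh : ∀ i j, i < j → j < s → h i < h j := by
    intro i j hij hj
    simp only [h, dif_pos (hij.trans hj), dif_pos hj]
    exact e.strictMono (by simpa using hij)
  have hhT : ∀ i, i < s → h i ∈ T := by
    intro i hi
    simp only [h, dif_pos hi]
    exact T.orderEmbOfFin_mem hTs _
  have hinj : ∀ i j, i < s → j < s → h i = h j → i = j := by
    intro i j hi hj hij
    rcases lt_trichotomy i j with h1 | h1 | h1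
    · have := hh i j h1 hj; omega
    · exact h1
    · have := hh j i h1 hi; omega
  -- blocks
  have hblock : ∀ I : Finset ℕ, I ⊆ range s → (I.image h) ⊆ T ∧ (I.image h).card = I.card ∧
      ∏ i ∈ I.image h, u i = ∏ i ∈ I, u (h i) := by
    intro I hI
    have hinj' : ∀ i ∈ I, ∀ j ∈ I, h i = h j → i = j := fun i hi j hj =>
      hinj i j (mem_range.1 (hI hi)) (mem_range.1 (hI hj))
    refine ⟨?_, card_image_of_injOn (fun i hi j hj => hinj' i hi j hj), prod_image hinj'⟩
    intro i hi
    obtain ⟨j, hj, rfl⟩ := mem_image.1 hi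
    exact hhT j (mem_range.1 (hI hj))
  obtain ⟨a, b, ha, hb, hab, hcab, hcab'⟩ := hs (fun k => c (∏ i ∈ range k, u (h i)))
  have hcol : ∀ I : Finset ℕ, I ⊆ range s → c (∏ i ∈ I, u (h i)) =
      c (∏ i ∈ range I.card, u (h i)) := by
    intro I hI
    have hIs : I.card ≤ s := by simpa using card_le_card hI
    have hr : range I.card ⊆ range s := range_subset_range.2 hIs
    obtain ⟨h1, h2, h3⟩ := hblock I hI
    obtain ⟨h4, h5, h6⟩ := hblock (range I.card) hr
    have h7 := hT _ h1 _ h4 (by rw [h2, h5, card_range]) (by rw [h2]; exact hIs)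
    rw [h3, h6] at h7
    exact h7
  -- the elements
  set I1 : Finset ℕ := range (a - 1) with hI1
  set I2 : Finset ℕ := Ico (a - 1) (a + b - 2) with hI2
  set k : ℕ := a + b - 2 with hk
  set l : ℕ := a + b - 1 with hl
  have hls : l < s := by omega
  have hks : k < s := by omega
  have hkl : k < l := by omega
  set x : F := (∏ i ∈ I1, u (h i)) * u (h l) with hx
  set y : F := (∏ i ∈ I2, u (h i)) * u (h k) with hy
  have hx' : x = ∏ i ∈ insert l I1, u (h i) := by
    rw [prod_insert (by simp only [hI1, mem_range]; omega), mul_comm]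
  have hy' : y = ∏ i ∈ insert k I2, u (h i) := by
    rw [prod_insert (by simp only [hI2, mem_Ico]; omega), mul_comm]
  have hxy' : x * y = ∏ i ∈ insert l I1 ∪ insert k I2, u (h i) := by
    rw [prod_union, ← hx', ← hy']
    rw [disjoint_left]
    intro i hi hi'
    simp only [hI1, hI2, mem_insert, mem_range, mem_Ico] at hi hi'
    omega
  have hc1 : (insert l I1).card = a := by
    rw [card_insert_of_notMem (by simp only [hI1, mem_range]; omega), hI1, card_range]
    omega
  have hc2 : (insert k I2).card = b := by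
    rw [card_insert_of_notMem (by simp only [hI2, mem_Ico]; omega), hI2, Nat.card_Ico]
    omega
  have hc3 : (insert l I1 ∪ insert k I2).card = a + b := by
    rw [card_union_of_disjoint, hc1, hc2]
    rw [disjoint_left]
    intro i hi hi'
    simp only [hI1, hI2, mem_insert, mem_range, mem_Ico] at hi hi'
    omega
  have hs1 : insert l I1 ⊆ range s := by
    intro i hi
    simp only [hI1, mem_insert, mem_range] at hi ⊢
    omega
  have hs2 : insert k I2 ⊆ range s := by
    intro i hi
    simp only [hI2, mem_insert, mem_range, mem_Ico] at hi ⊢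
    omega
  have hcx : c x = c (∏ i ∈ range a, u (h i)) := by rw [hx', hcol _ hs1, hc1]
  have hcy : c y = c (∏ i ∈ range b, u (h i)) := by rw [hy', hcol _ hs2, hc2]
  have hcxy : c (x * y) = c (∏ i ∈ range (a + b), u (h i)) := by
    rw [hxy', hcol _ (union_subset hs1 hs2), hc3]
  refine ⟨x, y, ?_, ?_, ?_, ?_, ?_⟩
  · exact mul_ne_zero (prod_ne_zero_iff.2 fun i _ => hu0 _) (hu0 _)
  · exact mul_ne_zero (prod_ne_zero_iff.2 fun i _ => hu0 _) (hu0 _)
  · rw [hcx, hcy]; exact hcab.symm
  · rw [hcx, hcxy]; exact hcab'.trans hcab.symm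
  · intro f hf
    have h1 := hu (h l) (mem_range.1 (hTn (hhT l hls))) (h k) (hh k l hkl hls) (I1.image h) (by
      intro i hi
      obtain ⟨j, hj, rfl⟩ := mem_image.1 hi
      simp only [hI1, mem_range] at hj
      exact mem_range.2 (hh j k (by omega) hks)) (I2.image h) (by
      intro i hi
      obtain ⟨j, hj, rfl⟩ := mem_image.1 hi
      simp only [hI2, mem_Ico] at hj
      exact mem_range.2 (hh j k (by omega) hks)) f hf
    rw [(hblock I1 (by
      intro i hi
      simp only [hI1, mem_range] at hi ⊢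
      omega)).2.2, (hblock I2 (by
      intro i hi
      simp only [hI2, mem_range, mem_Ico] at hi ⊢
      omega)).2.2] at h1
    exact h1

/-- **Main theorem.** For every finite colouring of a field of characteristic zero and every finite
set of polynomials without constant term, there are nonzero `x` and `y` such that `x`, `y`, `xy`
and all `x + f(y)` have the same colour. -/
theorem pattern {κ : Type} [Finite κ] (c : F → κ) (P : Finset F[X])
    (hP : ∀ f ∈ P, f.eval 0 = 0) :
    ∃ x y : F, x ≠ 0 ∧ y ≠ 0 ∧ c y = c x ∧ c (x * y) = c x ∧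
      ∀ f ∈ P, c (x + f.eval y) = c x := by
  classical
  obtain ⟨x, y, hx, hy, h1, h2, h3⟩ := pattern_aux (fun x => (c x, (decide (x = 0) : Bool)))
    (fun x h => by simpa using (Prod.ext_iff.1 h).2) (insert X P)
    (fun f hf => by
      rcases mem_insert.1 hf with rfl | hf
      · simp
      · exact hP f hf) (mem_insert_self _ _)
  exact ⟨x, y, hx, hy, (Prod.ext_iff.1 h1).1, (Prod.ext_iff.1 h2).1,
    fun f hf => (Prod.ext_iff.1 (h3 f (mem_insert_of_mem hf))).1⟩

end

end Pool.Agent.TH956
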