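import Mathlib

set_option autoImplicit false

/-!
# A uniform polynomial van der Waerden theorem along finite sums

The proof is colour focusing together with the usual induction on weights of families of
polynomials.
-/

namespace Pool.Agent.TH956

open Finset Polynomial

section
variable {A : Type} [CommRing A]

open Classical in
/-- The number of distinct leading coefficients of the members of degree `i`. -/
noncomputable def wt (𝒜 : Finset A[X]) (i : ℕ) : ℕ :=
  ((𝒜.filter (fun p => p.natDegree = i)).image Polynomial.leadingCoeff).card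

/-- The family `𝒜` is admissible for the bounds. -/
structure Adm (N D : ℕ) (w : Fin (D + 1) → ℕ) (𝒜 : Finset A[X]) : Prop where
  card : 𝒜.card ≤ N
  eval : ∀ p ∈ 𝒜, p.eval 0 = 0
  deg : ∀ p ∈ 𝒜, p.natDegree ≤ D
  ne : ∀ p ∈ 𝒜, p ≠ 0
  wt : ∀ i : Fin (D + 1), wt 𝒜 i ≤ w i

/-- The focus `z`, the shift set `α`. -/
def Sol {κ : Type} (𝒜 : Finset A[X]) (y : ℕ → A) (r : ℕ) (V : Finset A) (Ψ : A → κ) : Prop :=
  ∃ z ∈ V, ∃ α : Finset ℕ, α.Nonempty ∧ α ⊆ range r ∧
    ∀ p ∈ 𝒜, Ψ (z + p.eval (∑ i ∈ α, y i)) = Ψ z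

variable (A) in
/-- The uniform statement. -/
def IPR (K N D : ℕ) (w : Fin (D + 1) → ℕ) (r M : ℕ) : Prop :=
  ∀ 𝒜 : Finset A[X], Adm N D w 𝒜 → ∀ y : ℕ → A, ∃ V : Finset A, V.card ≤ M ∧
    ∀ (κ : Type) [Finite κ], Nat.card κ ≤ K → ∀ Ψ : A → κ, Sol 𝒜 y r V Ψ

variable (A) in
/-- The uniform statement for colour focusing. -/
def IPF (K N D : ℕ) (w : Fin (D + 1) → ℕ) (t r M : ℕ) : Prop :=
  ∀ 𝒜 : Finset A[X], Adm N D w 𝒜 → 𝒜.Nonempty → ∀ y : ℕ → A, ∃ V : Finset A, V.card ≤ M ∧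
    ∀ (κ : Type) [Finite κ], Nat.card κ ≤ K → ∀ Ψ : A → κ, Sol 𝒜 y r V Ψ ∨
      ∃ z ∈ V, ∃ α : Fin t → Finset ℕ, ∃ c : Fin t → κ, Function.Injective c ∧
        ∀ i, (α i).Nonempty ∧ α i ⊆ range r ∧ ∀ p ∈ 𝒜, Ψ (z + p.eval (∑ j ∈ α i, y j)) = c i

theorem Sol.mono {κ : Type} {𝒜 : Finset A[X]} {y : ℕ → A} {r r' : ℕ} {V V' : Finset A}
    {Ψ : A → κ} (h : Sol 𝒜 y r V Ψ) (hr : r ≤ r') (hV : V ⊆ V') : Sol 𝒜 y r' V' Ψ := by
  obtain ⟨z, hz, α, hα, hαr, hp⟩ := h
  exact ⟨z, hV hz, α, hα, hαr.trans (range_subset_range.2 hr), hp⟩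

theorem IPR.mono {K N D : ℕ} {w : Fin (D + 1) → ℕ} {r M r' M' : ℕ} (h : IPR A K N D w r M)
    (hr : r ≤ r') (hM : M ≤ M') : IPR A K N D w r' M' := by
  intro 𝒜 h𝒜 y
  obtain ⟨V, hV, h⟩ := h 𝒜 h𝒜 y
  exact ⟨V, hV.trans hM, fun κ _ hκ Ψ => (h κ hκ Ψ).mono hr (Subset.refl _)⟩

/-- Common bounds for finitely many weights. -/
theorem exists_bounds {ι : Type} [Finite ι] (P : ι → ℕ → ℕ → Prop)
    (hP : ∀ i r M r' M', r ≤ r' → M ≤ M' → P i r M → P i r' M')
    (h : ∀ i, ∃ r M, P i r M) : ∃ r M, ∀ i, P i r M := by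
  have := Fintype.ofFinite ι
  choose r M hrM using h
  refine ⟨univ.sup r, univ.sup M, fun i => hP i _ _ _ _ ?_ ?_ (hrM i)⟩
  · exact le_sup (mem_univ i)
  · exact le_sup (mem_univ i)

/-- The derived polynomial. -/
noncomputable def der (p₁ p : A[X]) (d : A) : A[X] := taylor d p - C (p.eval d) - p₁

theorem der_eval (p₁ p : A[X]) (d x : A) :
    (der p₁ p d).eval x = p.eval (x + d) - p.eval d - p₁.eval x := by
  simp [der, taylor_eval]

theorem der_natDegree_le (p₁ p : A[X]) (d : A) (D : ℕ) (h₁ : p₁.natDegree ≤ D)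
    (h : p.natDegree ≤ D) : (der p₁ p d).natDegree ≤ D := by
  unfold der
  refine (natDegree_sub_le _ _).trans (max_le ((natDegree_sub_le _ _).trans (max_le ?_ ?_)) h₁)
  · rw [natDegree_taylor]; exact h
  · simp

theorem der_coeff (p₁ p : A[X]) (d : A) (i : ℕ) (hi : 0 < i) :
    (der p₁ p d).coeff i = (taylor d p).coeff i - p₁.coeff i := by
  unfold der
  rw [coeff_sub, coeff_sub, coeff_C, if_neg hi.ne', sub_zero]

/-- The degree of the derived polynomial is the degree of `p` if it is at least the minimal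
degree. -/
theorem der_deg (p₁ p : A[X]) (d : A) (h₁ : 0 < p₁.natDegree) (hp : p₁.natDegree ≤ p.natDegree)
    (hq : p₁.natDegree ≤ (der p₁ p d).natDegree) :
    (der p₁ p d).natDegree = p.natDegree := by
  refine le_antisymm (der_natDegree_le _ _ _ _ hp le_rfl) ?_
  by_contra hlt
  push Not at hlt
  have h2 : p₁.natDegree < p.natDegree := hq.trans_lt hlt
  have h3 : (der p₁ p d).coeff p.natDegree = 0 := coeff_eq_zero_of_natDegree_lt hlt
  rw [der_coeff _ _ _ _ (h₁.trans h2), coeff_taylor_natDegree,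
    coeff_eq_zero_of_natDegree_lt h2, sub_zero, leadingCoeff_eq_zero] at h3
  rw [h3] at h2
  simp at h2

theorem der_lead (p₁ p : A[X]) (d : A) (h₁ : 0 < p₁.natDegree) (hp : p₁.natDegree < p.natDegree)
    (hq : (der p₁ p d).natDegree = p.natDegree) :
    (der p₁ p d).leadingCoeff = p.leadingCoeff := by
  rw [leadingCoeff, hq, der_coeff _ _ _ _ (h₁.trans hp), coeff_taylor_natDegree,
    coeff_eq_zero_of_natDegree_lt hp, sub_zero]

theorem der_lead' (p₁ p : A[X]) (d : A) (h₁ : 0 < p₁.natDegree) (hp : p₁.natDegree = p.natDegree)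
    (hq : (der p₁ p d).natDegree = p.natDegree) :
    (der p₁ p d).leadingCoeff = p.leadingCoeff - p₁.leadingCoeff := by
  rw [leadingCoeff, hq, der_coeff _ _ _ _ (hp ▸ h₁), coeff_taylor_natDegree]
  simp only [leadingCoeff, hp]

/-- The lexicographic order on weights. -/
def WRel (D : ℕ) : (Fin (D + 1) → ℕ) → (Fin (D + 1) → ℕ) → Prop :=
  Pi.Lex (· > ·) (fun {_} a b => a < b)

theorem WRel.wf (D : ℕ) : WellFounded (WRel D) :=
  Pi.Lex.wellFounded (· > ·) (fun _ => Nat.lt_wfRel.wf)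

/-- The lowered weight. -/
def low {D : ℕ} (w : Fin (D + 1) → ℕ) (e : Fin (D + 1)) (N' : ℕ) : Fin (D + 1) → ℕ :=
  fun i => if e < i then w i else if i = e then w e - 1 else N'

theorem low_rel {D : ℕ} (w : Fin (D + 1) → ℕ) (e : Fin (D + 1)) (N' : ℕ) (he : 1 ≤ w e) :
    WRel D (low w e N') w := by
  refine ⟨e, fun j hj => ?_, ?_⟩
  · have hj' : e < j := hj
    simp [low, hj']
  · simp only [low, lt_irrefl, if_false, if_true]
    omega

open Classical in
/-- The derived family. -/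
noncomputable def derFam (𝒜 : Finset A[X]) (p₁ : A[X]) (S : Finset A) : Finset A[X] :=
  ((𝒜 ×ˢ S).image (fun x => der p₁ x.1 x.2)).erase 0

theorem mem_derFam {𝒜 : Finset A[X]} {p₁ : A[X]} {S : Finset A} {q : A[X]} :
    q ∈ derFam 𝒜 p₁ S ↔ q ≠ 0 ∧ ∃ p ∈ 𝒜, ∃ d ∈ S, der p₁ p d = q := by
  classical
  unfold derFam
  rw [mem_erase, mem_image]
  constructor
  · rintro ⟨h, ⟨p, d⟩, hx, rfl⟩
    rw [mem_product] at hx
    exact ⟨h, p, hx.1, d, hx.2, rfl⟩
  · rintro ⟨h, p, hp, d, hd, rfl⟩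
    exact ⟨h, (p, d), mem_product.2 ⟨hp, hd⟩, rfl⟩

theorem adm_derFam {N D N' : ℕ} {w : Fin (D + 1) → ℕ} {𝒜 : Finset A[X]} (h𝒜 : Adm N D w 𝒜)
    (p₁ : A[X]) (hp₁ : p₁ ∈ 𝒜) (hmin : ∀ p ∈ 𝒜, p₁.natDegree ≤ p.natDegree) (S : Finset A)
    (hN' : N * S.card ≤ N') (e : Fin (D + 1)) (he : (e : ℕ) = p₁.natDegree) :
    Adm N' D (low w e N') (derFam 𝒜 p₁ S) := by
  classical
  have hpos : 0 < p₁.natDegree := by
    rw [Nat.pos_iff_ne_zero]
    intro h0
    have h1 := h𝒜.eval p₁ hp₁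
    rw [eq_C_of_natDegree_eq_zero h0] at h1
    simp only [eval_C] at h1
    apply h𝒜.ne p₁ hp₁
    rw [eq_C_of_natDegree_eq_zero h0, h1, C_0]
  have hcard : (derFam 𝒜 p₁ S).card ≤ N' := by
    refine le_trans ?_ hN'
    unfold derFam
    refine (card_le_card (erase_subset _ _)).trans (card_image_le.trans ?_)
    rw [card_product]
    exact Nat.mul_le_mul_right _ h𝒜.card
  refine ⟨hcard, ?_, ?_, ?_, ?_⟩
  · intro q hq
    obtain ⟨-, p, hp, d, -, rfl⟩ := mem_derFam.1 hq
    rw [der_eval, h𝒜.eval p₁ hp₁]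
    simp
  · intro q hq
    obtain ⟨-, p, hp, d, -, rfl⟩ := mem_derFam.1 hq
    exact der_natDegree_le _ _ _ _ (h𝒜.deg _ hp₁) (h𝒜.deg _ hp)
  · intro q hq
    exact (mem_derFam.1 hq).1
  · intro i
    unfold low
    split_ifs with h1 h2
    · -- degrees above the minimum
      refine le_trans ?_ (h𝒜.wt i)
      unfold TH956.wt
      apply card_le_card
      intro a ha
      obtain ⟨q, hq, rfl⟩ := mem_image.1 ha
      obtain ⟨hq, hqd⟩ := mem_filter.1 hq
      obtain ⟨-, p, hp, d, -, rfl⟩ := mem_derFam.1 hq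
      have h3 : (e : ℕ) < i := h1
      have h4 := der_deg p₁ p d hpos (hmin p hp) (by omega)
      refine mem_image.2 ⟨p, mem_filter.2 ⟨hp, by omega⟩, ?_⟩
      rw [der_lead p₁ p d hpos (by omega) h4]
    · subst h2
      have h5 : ((derFam 𝒜 p₁ S).filter (fun p => p.natDegree = (i : ℕ))).image leadingCoeff ⊆
          (((𝒜.filter (fun p => p.natDegree = (i : ℕ))).image leadingCoeff).erase
            p₁.leadingCoeff).image (fun a => a - p₁.leadingCoeff) := by
        intro a ha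
        obtain ⟨q, hq, rfl⟩ := mem_image.1 ha
        obtain ⟨hq, hqd⟩ := mem_filter.1 hq
        obtain ⟨hq0, p, hp, d, -, rfl⟩ := mem_derFam.1 hq
        have h4 := der_deg p₁ p d hpos (hmin p hp) (by omega)
        have h6 := der_lead' p₁ p d hpos (by omega) h4
        refine mem_image.2 ⟨p.leadingCoeff, mem_erase.2 ⟨?_, mem_image.2
          ⟨p, mem_filter.2 ⟨hp, by omega⟩, rfl⟩⟩, h6.symm⟩
        intro h7
        rw [h7, sub_self, leadingCoeff_eq_zero] at h6
        exact hq0 h6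
      unfold TH956.wt
      refine (card_le_card h5).trans (card_image_le.trans ?_)
      rw [card_erase_of_mem]
      · have := h𝒜.wt i
        unfold TH956.wt at this
        omega
      · exact mem_image.2 ⟨p₁, mem_filter.2 ⟨hp₁, he.symm⟩, rfl⟩
    · unfold TH956.wt
      refine card_image_le.trans ((card_le_card (filter_subset _ _)).trans hcard)

theorem one_le_wt {N D : ℕ} {w : Fin (D + 1) → ℕ} {𝒜 : Finset A[X]} (h𝒜 : Adm N D w 𝒜)
    (p₁ : A[X]) (hp₁ : p₁ ∈ 𝒜) (e : Fin (D + 1)) (he : (e : ℕ) = p₁.natDegree) : 1 ≤ w e := by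
  classical
  refine le_trans ?_ (h𝒜.wt e)
  unfold TH956.wt
  rw [Nat.one_le_iff_ne_zero, Ne, card_eq_zero, ← Ne, ← nonempty_iff_ne_empty]
  exact ⟨_, mem_image.2 ⟨p₁, mem_filter.2 ⟨hp₁, he.symm⟩, rfl⟩⟩

/-- The step of colour focusing. -/
theorem ipf_step {K N D : ℕ} {w : Fin (D + 1) → ℕ}
    (ih : ∀ w', WRel D w' w → ∀ K N, ∃ r M, IPR A K N D w' r M) {t rin Min : ℕ}
    (hin : IPF A K N D w t rin Min) : ∃ r M, IPF A K N D w (t + 1) r M := by
  classical
  set N' : ℕ := N * 2 ^ rin with hN'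
  set B : ℕ := Min + Min * (N * 2 ^ rin) with hB
  obtain ⟨rout, Mout, hout⟩ : ∃ r M, ∀ e : {e : Fin (D + 1) // 1 ≤ w e},
      IPR A (K ^ B) N' D (low w e N') r M := by
    apply exists_bounds
    · intro e r M r' M' hr hM h
      exact h.mono hr hM
    · intro e
      exact ih _ (low_rel w e N' e.2) _ _
  refine ⟨rin + rout, Mout * Min + Mout * Min * 2 ^ rout, ?_⟩
  intro 𝒜 h𝒜 hne y
  obtain ⟨p₁, hp₁, hmin⟩ := exists_min_image 𝒜 natDegree hne
  obtain ⟨e, he⟩ : ∃ e : Fin (D + 1), (e : ℕ) = p₁.natDegree :=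
    ⟨⟨p₁.natDegree, Nat.lt_succ_of_le (h𝒜.deg _ hp₁)⟩, rfl⟩
  have hwe := one_le_wt h𝒜 p₁ hp₁ e he
  obtain ⟨Vin, hVin, hVin'⟩ := hin 𝒜 h𝒜 hne y
  set S : Finset A := (range rin).powerset.image (fun β => ∑ i ∈ β, y i) with hS
  have hScard : S.card ≤ 2 ^ rin := by
    rw [hS]
    refine card_image_le.trans ?_
    rw [card_powerset, card_range]
  have hadm := adm_derFam h𝒜 p₁ hp₁ hmin S (N' := N') (by
    rw [hN']; exact Nat.mul_le_mul_left _ hScard) e he
  set y' : ℕ → A := fun i => y (rin + i) with hy'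
  obtain ⟨Vout, hVout, hVout'⟩ := hout ⟨e, hwe⟩ _ hadm y'
  set U : Finset A := Vin ∪ (Vin ×ˢ (𝒜 ×ˢ S)).image (fun x => x.1 + x.2.1.eval x.2.2) with hU
  have hUcard : U.card ≤ B := by
    rw [hU, hB]
    refine (card_union_le _ _).trans (Nat.add_le_add hVin (card_image_le.trans ?_))
    rw [card_product, card_product]
    exact Nat.mul_le_mul hVin (Nat.mul_le_mul h𝒜.card hScard)
  set So : Finset A := (range rout).powerset.image (fun β => ∑ i ∈ β, y' i) with hSo
  have hSocard : So.card ≤ 2 ^ rout := by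
    rw [hSo]
    refine card_image_le.trans ?_
    rw [card_powerset, card_range]
  refine ⟨(Vout ×ˢ Vin).image (fun x => x.1 + x.2) ∪
    (Vout ×ˢ (Vin ×ˢ So)).image (fun x => x.1 + x.2.1 - p₁.eval x.2.2), ?_, ?_⟩
  · refine (card_union_le _ _).trans (Nat.add_le_add (card_image_le.trans ?_)
      (card_image_le.trans ?_))
    · rw [card_product]
      exact Nat.mul_le_mul hVout hVin
    · rw [card_product, card_product, mul_assoc]
      exact Nat.mul_le_mul hVout (Nat.mul_le_mul hVin hSocard)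
  intro κ _ hκ Ψ
  have hκne : Nonempty κ := ⟨Ψ 0⟩
  have hK1 : 1 ≤ K := le_trans (Nat.card_pos) hκ
  -- the outer application
  obtain ⟨zo, hzo, αo, hαo, hαor, hout⟩ := hVout' (U → κ) (by
    rw [Nat.card_fun]
    have h1 : Nat.card U = U.card := by simp
    rw [h1]
    exact (Nat.pow_le_pow_left hκ _).trans (Nat.pow_le_pow_right hK1 hUcard))
    (fun x u => Ψ (x + u))
  set x : A := ∑ i ∈ αo, y' i with hx
  have hxSo : x ∈ So := mem_image.2 ⟨αo, mem_powerset.2 hαor, rfl⟩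
  have key : ∀ p ∈ 𝒜, ∀ d ∈ S, ∀ u ∈ U,
      Ψ (zo + (p.eval (x + d) - p.eval d - p₁.eval x) + u) = Ψ (zo + u) := by
    intro p hp d hd u hu
    rw [← der_eval]
    by_cases h0 : der p₁ p d = 0
    · rw [h0]; simp
    · have h1 := hout (der p₁ p d) (mem_derFam.2 ⟨h0, p, hp, d, hd, rfl⟩)
      exact congrFun h1 ⟨u, hu⟩
  have h0S : (0 : A) ∈ S := mem_image.2 ⟨∅, by simp, by simp⟩
  -- the inner application
  rcases hVin' κ hκ (fun z => Ψ (zo + z)) with hsol | ⟨zi, hzi, α, c, hc, hα⟩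
  · left
    obtain ⟨zi, hzi, α, hα, hαr, hp⟩ := hsol
    refine ⟨zo + zi, mem_union_left _ (mem_image.2 ⟨(zo, zi), mem_product.2 ⟨hzo, hzi⟩, rfl⟩),
      α, hα, hαr.trans (range_subset_range.2 (by omega)), fun p hpA => ?_⟩
    have := hp p hpA
    simpa only [add_assoc] using this
  · by_cases hcol : ∃ i, c i = Ψ (zo + zi)
    · left
      obtain ⟨i, hi⟩ := hcol
      refine ⟨zo + zi, mem_union_left _ (mem_image.2 ⟨(zo, zi), mem_product.2 ⟨hzo, hzi⟩, rfl⟩),
        α i, (hα i).1, (hα i).2.1.trans (range_subset_range.2 (by omega)), fun p hpA => ?_⟩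
      have := (hα i).2.2 p hpA
      rw [← hi, ← this]
      simp only [add_assoc]
    · right
      push Not at hcol
      set αo' : Finset ℕ := αo.map (addLeftEmbedding rin) with hαo'
      have hsumo : ∑ j ∈ αo', y j = x := by
        rw [hαo', sum_map, hx]
        rfl
      have hαo'ne : αo'.Nonempty := by
        rw [hαo']; exact hαo.map
      have hαo'r : αo' ⊆ range (rin + rout) := by
        intro j hj
        rw [hαo', mem_map] at hj
        obtain ⟨i, hi, rfl⟩ := hj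
        have := mem_range.1 (hαor hi)
        rw [mem_range]
        show rin + i < rin + rout
        omega
      have hdisj : ∀ β : Finset ℕ, β ⊆ range rin → Disjoint β αo' := by
        intro β hβ
        rw [disjoint_left]
        intro j hj hj'
        have h1 := mem_range.1 (hβ hj)
        rw [hαo', mem_map] at hj'
        obtain ⟨i, hi, rfl⟩ := hj'
        have h2 : rin + i < rin := h1
        omega
      refine ⟨zo + zi - p₁.eval x, mem_union_right _ (mem_image.2 ⟨(zo, zi, x),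
        mem_product.2 ⟨hzo, mem_product.2 ⟨hzi, hxSo⟩⟩, rfl⟩),
        Fin.cons αo' (fun i => α i ∪ αo'), Fin.cons (Ψ (zo + zi)) c, ?_, ?_⟩
      · intro i j hij
        induction i using Fin.cases with
        | zero =>
          induction j using Fin.cases with
          | zero => rfl
          | succ j =>
            simp only [Fin.cons_zero, Fin.cons_succ] at hij
            exact absurd hij.symm (hcol j)
        | succ i =>
          induction j using Fin.cases with
          | zero =>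
            simp only [Fin.cons_zero, Fin.cons_succ] at hij
            exact absurd hij (hcol i)
          | succ j =>
            simp only [Fin.cons_succ] at hij
            rw [hc hij]
      · intro i
        induction i using Fin.cases with
        | zero =>
          simp only [Fin.cons_zero]
          refine ⟨hαo'ne, hαo'r, fun p hp => ?_⟩
          rw [hsumo]
          have h1 := key p hp 0 h0S zi (mem_union_left _ hzi)
          rw [add_zero, h𝒜.eval p hp] at h1
          rw [← h1]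
          congr 1
          ring
        | succ i =>
          simp only [Fin.cons_succ]
          refine ⟨(hα i).1.mono subset_union_left, union_subset ((hα i).2.1.trans
            (range_subset_range.2 (by omega))) hαo'r, fun p hp => ?_⟩
          rw [sum_union (hdisj _ (hα i).2.1), hsumo]
          set d : A := ∑ j ∈ α i, y j with hd
          have hdS : d ∈ S := mem_image.2 ⟨α i, mem_powerset.2 (hα i).2.1, rfl⟩
          have h1 := key p hp d hdS (zi + p.eval d) (mem_union_right _ (mem_image.2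
            ⟨(zi, p, d), mem_product.2 ⟨hzi, mem_product.2 ⟨hp, hdS⟩⟩, rfl⟩))
          rw [(hα i).2.2 p hp] at h1
          rw [← h1]
          congr 1
          rw [add_comm d x]
          ring

theorem ipf_all {K N D : ℕ} {w : Fin (D + 1) → ℕ}
    (ih : ∀ w', WRel D w' w → ∀ K N, ∃ r M, IPR A K N D w' r M) (t : ℕ) :
    ∃ r M, IPF A K N D w t r M := by
  induction t with
  | zero =>
    refine ⟨0, 1, fun 𝒜 _ _ y => ⟨{0}, by simp, fun κ _ _ Ψ => Or.inr ⟨0, by simp,
      fun i => i.elim0, fun i => i.elim0, fun i => i.elim0, fun i => i.elim0⟩⟩⟩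
  | succ t iht =>
    obtain ⟨r, M, h⟩ := iht
    exact ipf_step ih h

theorem ipr_all (D : ℕ) (w : Fin (D + 1) → ℕ) : ∀ K N, ∃ r M, IPR A K N D w r M := by
  induction w using (WRel.wf D).induction with
  | _ w ih =>
    intro K N
    obtain ⟨r, M, h⟩ := ipf_all (K := K) (N := N) ih (K + 1)
    refine ⟨max r 1, max M 1, fun 𝒜 h𝒜 y => ?_⟩
    rcases 𝒜.eq_empty_or_nonempty with rfl | hne
    · refine ⟨{0}, by simp, fun κ _ _ Ψ => ⟨0, by simp, {0}, by simp, ?_, by simp⟩⟩
      intro j hj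
      rw [mem_singleton] at hj
      subst hj
      simp
    · obtain ⟨V, hV, hV'⟩ := h 𝒜 h𝒜 hne y
      refine ⟨V, hV.trans (le_max_left _ _), fun κ _ hκ Ψ => ?_⟩
      rcases hV' κ hκ Ψ with hsol | ⟨z, hz, α, c, hc, -⟩
      · exact hsol.mono (le_max_left _ _) (Subset.refl _)
      · exfalso
        have h1 := Nat.card_le_card_of_injective c hc
        rw [Nat.card_fin] at h1
        omega

/-- Uniform polynomial van der Waerden theorem along finite sums. -/
theorem ipvdw (K N D : ℕ) : ∃ r M : ℕ, ∀ 𝒜 : Finset A[X], 𝒜.card ≤ N →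
    (∀ p ∈ 𝒜, p.eval 0 = 0) → (∀ p ∈ 𝒜, p.natDegree ≤ D) → ∀ y : ℕ → A,
      ∃ V : Finset A, V.card ≤ M ∧ ∀ (κ : Type) [Finite κ], Nat.card κ ≤ K → ∀ Ψ : A → κ,
        ∃ z ∈ V, ∃ α : Finset ℕ, α.Nonempty ∧ α ⊆ range r ∧
          ∀ p ∈ 𝒜, Ψ (z + p.eval (∑ i ∈ α, y i)) = Ψ z := by
  classical
  obtain ⟨r, M, h⟩ := ipr_all (A := A) D (fun _ => N) K N
  refine ⟨r, M, fun 𝒜 hN h0 hD y => ?_⟩
  have hadm : Adm N D (fun _ => N) (𝒜.erase 0) := by
    refine ⟨(card_le_card (erase_subset _ _)).trans hN, fun p hp => h0 p (mem_of_mem_erase hp),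
      fun p hp => hD p (mem_of_mem_erase hp), fun p hp => ne_of_mem_erase hp, fun i => ?_⟩
    unfold TH956.wt
    exact card_image_le.trans ((card_le_card (filter_subset _ _)).trans
      ((card_le_card (erase_subset _ _)).trans hN))
  obtain ⟨V, hV, hV'⟩ := h _ hadm y
  refine ⟨V, hV, fun κ _ hκ Ψ => ?_⟩
  obtain ⟨z, hz, α, hα, hαr, hp⟩ := hV' κ hκ Ψ
  refine ⟨z, hz, α, hα, hαr, fun p hpA => ?_⟩
  by_cases hp0 : p = 0
  · subst hp0; simp
  · exact hp p (mem_erase.2 ⟨hp0, hpA⟩)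

end

end Pool.Agent.TH956
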