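import Pool.Agent.TH956.PET

set_option autoImplicit false

/-!
# A tree version of the uniform polynomial van der Waerden theorem along finite sums

The outcomes of the colour focusing argument are organised in a tree: two outcomes whose index sets
agree up to `m` have base points which differ by a combination of the generators after `m`.
-/

namespace Pool.Agent.TH956

open Finset Polynomial

section
variable {A : Type} [CommRing A]

/-- The two index sets agree up to their common element `m`. -/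
def Agree (m : ℕ) (α α' : Finset ℕ) : Prop := m ∈ α ∧ m ∈ α' ∧ ∀ k < m, (k ∈ α ↔ k ∈ α')

/-- A tree of outcomes `(z, α, c)`: base point, index set and colour. -/
structure Tree {κ : Type} (y : ℕ → A) (r : ℕ) (V : Finset A) (E : Set (A × Finset ℕ × κ)) :
    Prop where
  mem : ∀ z α c, (z, α, c) ∈ E → z ∈ V
  ne : ∀ z α c, (z, α, c) ∈ E → α.Nonempty
  sub : ∀ z α c, (z, α, c) ∈ E → α ⊆ range r
  dvd : ∀ z α c, (z, α, c) ∈ E → ∀ g : A, (∀ n < r, g ∣ y n) → g ∣ z
  col : ∀ z α c z' α' c' m, (z, α, c) ∈ E → (z', α', c') ∈ E → Agree m α α' → c = c'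
  dvd' : ∀ z α c z' α' c' m, (z, α, c) ∈ E → (z', α', c') ∈ E → Agree m α α' →
    ∀ g : A, (∀ n, m < n → n < r → g ∣ y n) → g ∣ z - z'

theorem Tree.mono {κ : Type} {y : ℕ → A} {r r' : ℕ} {V : Finset A} {E : Set (A × Finset ℕ × κ)}
    (h : Tree y r V E) (hr : r ≤ r') : Tree y r' V E where
  mem := h.mem
  ne := h.ne
  sub := fun z α c he => (h.sub z α c he).trans (range_subset_range.2 hr)
  dvd := fun z α c he g hg => h.dvd z α c he g fun n hn => hg n (hn.trans_le hr)
  col := h.col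
  dvd' := fun z α c z' α' c' m he he' ha g hg => h.dvd' z α c z' α' c' m he he' ha g
    fun n hn hn' => hg n hn (hn'.trans_le hr)

/-- The colouring `Ψ` is solved by some outcome. -/
def Cov {κ : Type} (𝒜 : Finset A[X]) (y : ℕ → A) (E : Set (A × Finset ℕ × κ)) (Ψ : A → κ) : Prop :=
  ∃ z α c, (z, α, c) ∈ E ∧ Ψ z = c ∧ ∀ p ∈ 𝒜, Ψ (z + p.eval (∑ i ∈ α, y i)) = c

variable (A) in
/-- The uniform statement. -/
def TIPR (K N D : ℕ) (w : Fin (D + 1) → ℕ) (r M : ℕ) : Prop :=
  ∀ 𝒜 : Finset A[X], Adm N D w 𝒜 → ∀ (y : ℕ → A) (κ : Type) [Finite κ] [Nonempty κ],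
    Nat.card κ ≤ K → ∃ (V : Finset A) (E : Set (A × Finset ℕ × κ)), V.card ≤ M ∧ Tree y r V E ∧
      ∀ Ψ : A → κ, Cov 𝒜 y E Ψ

variable (A) in
/-- The uniform statement for colour focusing. -/
def TIPF (K N D : ℕ) (w : Fin (D + 1) → ℕ) (t r M : ℕ) : Prop :=
  ∀ 𝒜 : Finset A[X], Adm N D w 𝒜 → 𝒜.Nonempty → ∀ (y : ℕ → A) (κ : Type) [Finite κ] [Nonempty κ],
    Nat.card κ ≤ K → ∃ (V : Finset A) (E : Set (A × Finset ℕ × κ)), V.card ≤ M ∧ Tree y r V E ∧
      ∀ Ψ : A → κ, Cov 𝒜 y E Ψ ∨ ∃ z ∈ V, (∀ g : A, (∀ n < r, g ∣ y n) → g ∣ z) ∧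
        ∃ α : Fin t → Finset ℕ, ∃ c : Fin t → κ, Function.Injective c ∧
          ∀ i, (z, α i, c i) ∈ E ∧ ∀ p ∈ 𝒜, Ψ (z + p.eval (∑ j ∈ α i, y j)) = c i

theorem TIPR.mono {K N D : ℕ} {w : Fin (D + 1) → ℕ} {r M r' M' : ℕ} (h : TIPR A K N D w r M)
    (hr : r ≤ r') (hM : M ≤ M') : TIPR A K N D w r' M' := by
  intro 𝒜 h𝒜 y κ _ _ hκ
  obtain ⟨V, E, hV, hE, h⟩ := h 𝒜 h𝒜 y κ hκ
  exact ⟨V, E, hV.trans hM, hE.mono hr, h⟩

/-- The extension of a colouring of a finite set. -/
noncomputable def extCol {κ : Type} [Nonempty κ] (U : Finset A) (χ : U → κ) (a : A) : κ := by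
  classical
  exact if h : a ∈ U then χ ⟨a, h⟩ else Classical.arbitrary κ

theorem extCol_of_mem {κ : Type} [Nonempty κ] {U : Finset A} (χ : U → κ) {a : A} (h : a ∈ U) :
    extCol U χ a = χ ⟨a, h⟩ := by
  unfold extCol
  rw [dif_pos h]

theorem dvd_eval {p : A[X]} (h0 : p.eval 0 = 0) {g x : A} (h : g ∣ x) : g ∣ p.eval x := by
  have h1 := sub_dvd_eval_sub x 0 p
  rw [sub_zero, h0, sub_zero] at h1
  exact h.trans h1

/-- The step of colour focusing. -/
theorem tipf_step {K N D : ℕ} {w : Fin (D + 1) → ℕ}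
    (ih : ∀ w', WRel D w' w → ∀ K N, ∃ r M, TIPR A K N D w' r M) {t rin Min : ℕ}
    (hin : TIPF A K N D w t rin Min) : ∃ r M, TIPF A K N D w (t + 1) r M := by
  classical
  set N' : ℕ := N * 2 ^ rin with hN'
  set B : ℕ := Min + Min * (N * 2 ^ rin) with hB
  obtain ⟨rout, Mout, hout⟩ : ∃ r M, ∀ e : {e : Fin (D + 1) // 1 ≤ w e},
      TIPR A (K ^ B) N' D (low w e N') r M := by
    apply exists_bounds
    · intro e r M r' M' hr hM h
      exact h.mono hr hM
    · intro e
      exact ih _ (low_rel w e N' e.2) _ _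
  refine ⟨rin + rout, Mout * Min + Mout * Min * 2 ^ rout, ?_⟩
  intro 𝒜 h𝒜 hne y κ _ _ hκ
  obtain ⟨p₁, hp₁, hmin⟩ := exists_min_image 𝒜 natDegree hne
  obtain ⟨e, he⟩ : ∃ e : Fin (D + 1), (e : ℕ) = p₁.natDegree :=
    ⟨⟨p₁.natDegree, Nat.lt_succ_of_le (h𝒜.deg _ hp₁)⟩, rfl⟩
  have hwe := one_le_wt h𝒜 p₁ hp₁ e he
  obtain ⟨Vin, Ein, hVin, hEin, hcin⟩ := hin 𝒜 h𝒜 hne y κ hκ
  set S : Finset A := (range rin).powerset.image (fun β => ∑ i ∈ β, y i) with hS
  have hScard : S.card ≤ 2 ^ rin := by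
    rw [hS]
    refine card_image_le.trans ?_
    rw [card_powerset, card_range]
  have hadm := adm_derFam h𝒜 p₁ hp₁ hmin S (N' := N') (by
    rw [hN']; exact Nat.mul_le_mul_left _ hScard) e he
  set y' : ℕ → A := fun i => y (rin + i) with hy'
  set U : Finset A := Vin ∪ (Vin ×ˢ (𝒜 ×ˢ S)).image (fun x => x.1 + x.2.1.eval x.2.2) with hU
  have hUcard : U.card ≤ B := by
    rw [hU, hB]
    refine (card_union_le _ _).trans (Nat.add_le_add hVin (card_image_le.trans ?_))
    rw [card_product, card_product]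
    exact Nat.mul_le_mul hVin (Nat.mul_le_mul h𝒜.card hScard)
  have hK1 : 1 ≤ K := le_trans (Nat.card_pos) hκ
  obtain ⟨Vout, Eout, hVout, hEout, hcout⟩ := hout ⟨e, hwe⟩ _ hadm y' (U → κ) (by
    rw [Nat.card_fun]
    have h1 : Nat.card U = U.card := by simp
    rw [h1]
    exact (Nat.pow_le_pow_left hκ _).trans (Nat.pow_le_pow_right hK1 hUcard))
  set So : Finset A := (range rout).powerset.image (fun β => ∑ i ∈ β, y' i) with hSo
  have hSocard : So.card ≤ 2 ^ rout := by
    rw [hSo]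
    refine card_image_le.trans ?_
    rw [card_powerset, card_range]
  have hzU : ∀ z ∈ Vin, z ∈ U := fun z hz => mem_union_left _ hz
  have hSmem : ∀ α : Finset ℕ, α ⊆ range rin → ∑ j ∈ α, y j ∈ S := fun α hα =>
    mem_image.2 ⟨α, mem_powerset.2 hα, rfl⟩
  have hzU' : ∀ z ∈ Vin, ∀ p ∈ 𝒜, ∀ d ∈ S, z + p.eval d ∈ U := fun z hz p hp d hd =>
    mem_union_right _ (mem_image.2 ⟨(z, p, d), mem_product.2 ⟨hz, mem_product.2 ⟨hp, hd⟩⟩, rfl⟩)
  -- the outcome of the inner tree for a colouring of the window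
  have hchoice : ∀ χ : U → κ, ¬ Cov 𝒜 y Ein (extCol U χ) → ∃ (z : A) (α : Fin t → Finset ℕ)
      (c : Fin t → κ), z ∈ Vin ∧ (∀ g : A, (∀ n < rin, g ∣ y n) → g ∣ z) ∧
        Function.Injective c ∧ ∀ i, (z, α i, c i) ∈ Ein ∧
          ∀ p ∈ 𝒜, extCol U χ (z + p.eval (∑ j ∈ α i, y j)) = c i := by
    intro χ hχ
    rcases hcin (extCol U χ) with h | ⟨z, hz, hz', α, c, h1, h2⟩
    · exact absurd h hχ
    · exact ⟨z, α, c, hz, hz', h1, h2⟩
  choose! Z Al Co hZ hZd hCo hEd using hchoice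
  set O : Finset ℕ → Finset ℕ := fun αo => αo.map (addLeftEmbedding rin) with hO
  have hOge : ∀ αo, ∀ k ∈ O αo, rin ≤ k := by
    intro αo k hk
    rw [hO, mem_map] at hk
    obtain ⟨i, -, rfl⟩ := hk
    show rin ≤ rin + i
    omega
  have hOmem : ∀ αo k, rin + k ∈ O αo ↔ k ∈ αo := by
    intro αo k
    rw [hO, mem_map]
    constructor
    · rintro ⟨i, hi, h⟩
      have h1 : rin + i = rin + k := h
      have h2 : i = k := by omega
      rwa [← h2]
    · intro h
      exact ⟨k, h, rfl⟩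
  have hOsum : ∀ αo, ∑ j ∈ O αo, y j = ∑ i ∈ αo, y' i := by
    intro αo
    rw [hO, sum_map]
    rfl
  have hOne : ∀ αo : Finset ℕ, αo.Nonempty → (O αo).Nonempty := fun αo h => h.map
  have hOr : ∀ αo : Finset ℕ, αo ⊆ range rout → O αo ⊆ range (rin + rout) := by
    intro αo h j hj
    rw [hO, mem_map] at hj
    obtain ⟨i, hi, rfl⟩ := hj
    have := mem_range.1 (h hi)
    rw [mem_range]
    show rin + i < rin + rout
    omega
  set E : Set (A × Finset ℕ × κ) := {e | ∃ zo αo χ z α c o q, (zo, αo, χ) ∈ Eout ∧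
    e = (zo + z - q, α ∪ o, c) ∧
    ((o = ∅ ∧ q = 0) ∨ (o = O αo ∧ q = p₁.eval (∑ i ∈ αo, y' i) ∧
      ¬ Cov 𝒜 y Ein (extCol U χ) ∧ z = Z χ)) ∧
    ((z, α, c) ∈ Ein ∨ (α = ∅ ∧ o = O αo ∧ c = extCol U χ z))} with hE
  set V : Finset A := (Vout ×ˢ Vin).image (fun x => x.1 + x.2) ∪
    (Vout ×ˢ (Vin ×ˢ So)).image (fun x => x.1 + x.2.1 - p₁.eval x.2.2) with hV
  have hp₁0 := h𝒜.eval p₁ hp₁
  -- the properties of the new outcomes
  have hdesc : ∀ zo αo χ z α c o q, (zo, αo, χ) ∈ Eout →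
    ((o = ∅ ∧ q = 0) ∨ (o = O αo ∧ q = p₁.eval (∑ i ∈ αo, y' i) ∧
      ¬ Cov 𝒜 y Ein (extCol U χ) ∧ z = Z χ)) →
    ((z, α, c) ∈ Ein ∨ (α = ∅ ∧ o = O αo ∧ c = extCol U χ z)) →
      z ∈ Vin ∧ (∀ g : A, (∀ n < rin, g ∣ y n) → g ∣ z) ∧ α ⊆ range rin ∧
      (∀ k ∈ o, rin ≤ k) ∧ o ⊆ range (rin + rout) ∧
      ∀ g : A, (∀ n, rin ≤ n → n < rin + rout → g ∣ y n) → g ∣ zo - q := by
    intro zo αo χ z α c o q ho h1 h2
    have hg : ∀ g : A, (∀ n, rin ≤ n → n < rin + rout → g ∣ y n) → g ∣ zo - q := by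
      intro g hg
      have h3 : ∀ n < rout, g ∣ y' n := fun n hn => hg _ (by omega) (by omega)
      refine dvd_sub (hEout.dvd _ _ _ ho g h3) ?_
      rcases h1 with ⟨-, rfl⟩ | ⟨-, rfl, -, -⟩
      · exact dvd_zero _
      · exact dvd_eval hp₁0 (dvd_sum fun i hi => h3 i (mem_range.1 (hEout.sub _ _ _ ho hi)))
    have hoo : (∀ k ∈ o, rin ≤ k) ∧ o ⊆ range (rin + rout) := by
      rcases h1 with ⟨rfl, -⟩ | ⟨rfl, -, -, -⟩
      · simp
      · exact ⟨hOge αo, hOr αo (hEout.sub _ _ _ ho)⟩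
    rcases h2 with h2 | ⟨rfl, h3, rfl⟩
    · exact ⟨hEin.mem _ _ _ h2, hEin.dvd _ _ _ h2, hEin.sub _ _ _ h2, hoo.1, hoo.2, hg⟩
    · rcases h1 with ⟨rfl, rfl⟩ | ⟨rfl, rfl, h4, rfl⟩
      · have := hOne αo (hEout.ne _ _ _ ho)
        rw [← h3] at this
        simp at this
      · exact ⟨hZ χ h4, hZd χ h4, by simp, hoo.1, hoo.2, hg⟩
  have hTree : Tree y (rin + rout) V E := by
    refine ⟨?_, ?_, ?_, ?_, ?_, ?_⟩
    · rintro z' α' c' ⟨zo, αo, χ, z, α, c, o, q, ho, heq, h1, h2⟩
      obtain ⟨hz, -⟩ := hdesc _ _ _ _ _ _ _ _ ho h1 h2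
      rw [Prod.mk.injEq] at heq
      rw [heq.1]
      rcases h1 with ⟨-, rfl⟩ | ⟨-, rfl, -, -⟩
      · rw [sub_zero]
        exact mem_union_left _ (mem_image.2 ⟨(zo, z), mem_product.2 ⟨hEout.mem _ _ _ ho, hz⟩, rfl⟩)
      · exact mem_union_right _ (mem_image.2 ⟨(zo, z, ∑ i ∈ αo, y' i), mem_product.2
          ⟨hEout.mem _ _ _ ho, mem_product.2 ⟨hz, mem_image.2 ⟨αo, mem_powerset.2
            (hEout.sub _ _ _ ho), rfl⟩⟩⟩, rfl⟩)
    · rintro z' α' c' ⟨zo, αo, χ, z, α, c, o, q, ho, heq, h1, h2⟩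
      rw [Prod.mk.injEq, Prod.mk.injEq] at heq
      rw [heq.2.1]
      rcases h2 with h2 | ⟨-, h3, -⟩
      · exact (hEin.ne _ _ _ h2).mono subset_union_left
      · exact (h3 ▸ hOne αo (hEout.ne _ _ _ ho)).mono subset_union_right
    · rintro z' α' c' ⟨zo, αo, χ, z, α, c, o, q, ho, heq, h1, h2⟩
      obtain ⟨-, -, h3, -, h4, -⟩ := hdesc _ _ _ _ _ _ _ _ ho h1 h2
      rw [Prod.mk.injEq, Prod.mk.injEq] at heq
      rw [heq.2.1]
      exact union_subset (h3.trans (range_subset_range.2 (by omega))) h4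
    · rintro z' α' c' ⟨zo, αo, χ, z, α, c, o, q, ho, heq, h1, h2⟩ g hg
      obtain ⟨-, h3, -, -, -, h4⟩ := hdesc _ _ _ _ _ _ _ _ ho h1 h2
      rw [Prod.mk.injEq] at heq
      rw [heq.1]
      have h5 : zo + z - q = (zo - q) + z := by ring
      rw [h5]
      exact dvd_add (h4 g fun n _ hn => hg n hn) (h3 g fun n hn => hg n (by omega))
    all_goals
      rintro z1 α1 c1 z2 α2 c2 m ⟨zo, αo, χ, z, α, c, o, q, ho, heq, h1, h2⟩
        ⟨zo', αo', χ', z', α', c', o', q', ho', heq', h1', h2'⟩ hag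
      obtain ⟨-, -, h3, h4, h5, h6⟩ := hdesc _ _ _ _ _ _ _ _ ho h1 h2
      obtain ⟨-, -, h3', h4', h5', h6'⟩ := hdesc _ _ _ _ _ _ _ _ ho' h1' h2'
      rw [Prod.mk.injEq, Prod.mk.injEq] at heq heq'
      obtain ⟨rfl, rfl, rfl⟩ := heq
      obtain ⟨rfl, rfl, rfl⟩ := heq'
      obtain ⟨ha, ha', hk⟩ := hag
      rcases lt_or_ge m rin with hm | hm
    · -- colours, low
      have hma : m ∈ α := (mem_union.1 ha).resolve_right fun h => by have := h4 m h; omega
      have hma' : m ∈ α' := (mem_union.1 ha').resolve_right fun h => by have := h4' m h; omega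
      have h7 : (z, α, c1) ∈ Ein := h2.resolve_right fun h => by rw [h.1] at hma; simp at hma
      have h7' : (z', α', c2) ∈ Ein := h2'.resolve_right fun h => by rw [h.1] at hma'; simp at hma'
      refine hEin.col _ _ _ _ _ _ m h7 h7' ⟨hma, hma', fun k hkm => ?_⟩
      have h8 := hk k hkm
      rw [mem_union, mem_union] at h8
      have h9 : k ∉ o := fun h => by have := h4 k h; omega
      have h9' : k ∉ o' := fun h => by have := h4' k h; omega
      simpa only [h9, h9', or_false] using h8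
    · -- colours, high
      have hma : m ∈ o := (mem_union.1 ha).resolve_left fun h => by
        have := mem_range.1 (h3 h); omega
      have hma' : m ∈ o' := (mem_union.1 ha').resolve_left fun h => by
        have := mem_range.1 (h3' h); omega
      obtain ⟨rfl, rfl, hC, rfl⟩ := h1.resolve_left fun h => by rw [h.1] at hma; simp at hma
      obtain ⟨rfl, rfl, hC', rfl⟩ := h1'.resolve_left fun h => by rw [h.1] at hma'; simp at hma'
      obtain ⟨m, rfl⟩ : ∃ m', m = rin + m' := ⟨m - rin, by omega⟩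
      have hag' : Agree m αo αo' := by
        refine ⟨(hOmem _ _).1 hma, (hOmem _ _).1 hma', fun k hkm => ?_⟩
        have h8 := hk (rin + k) (by omega)
        rw [mem_union, mem_union, hOmem, hOmem] at h8
        have h9 : rin + k ∉ α := fun h => by have := mem_range.1 (h3 h); omega
        have h9' : rin + k ∉ α' := fun h => by have := mem_range.1 (h3' h); omega
        simpa only [h9, h9', false_or] using h8
      have hαα : α = α' := by
        ext k
        rcases lt_or_ge k rin with hkr | hkr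
        · have h8 := hk k (by omega)
          rw [mem_union, mem_union] at h8
          have h9 : k ∉ O αo := fun h => by have := hOge _ k h; omega
          have h9' : k ∉ O αo' := fun h => by have := hOge _ k h; omega
          simpa only [h9, h9', or_false] using h8
        · constructor
          · intro h; have := mem_range.1 (h3 h); omega
          · intro h; have := mem_range.1 (h3' h); omega
      have hχχ := hEout.col _ _ _ _ _ _ _ ho ho' hag'
      subst hχχ
      subst hαα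
      rcases h2 with h2 | ⟨h2, -, rfl⟩
      · rcases h2' with h2' | ⟨h2', -, -⟩
        · obtain ⟨k, hkα⟩ := hEin.ne _ _ _ h2
          exact hEin.col _ _ _ _ _ _ k h2 h2' ⟨hkα, hkα, fun _ _ => Iff.rfl⟩
        · exfalso
          have := hEin.ne _ _ _ h2
          rw [h2'] at this
          simp at this
      · rcases h2' with h2' | ⟨h2', -, rfl⟩
        · exfalso
          have := hEin.ne _ _ _ h2'
          rw [h2] at this
          simp at this
        · rfl
    · -- base points, low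
      intro g hg
      have hma : m ∈ α := (mem_union.1 ha).resolve_right fun h => by have := h4 m h; omega
      have hma' : m ∈ α' := (mem_union.1 ha').resolve_right fun h => by have := h4' m h; omega
      have h7 : (z, α, c1) ∈ Ein := h2.resolve_right fun h => by rw [h.1] at hma; simp at hma
      have h7' : (z', α', c2) ∈ Ein := h2'.resolve_right fun h => by rw [h.1] at hma'; simp at hma'
      have h10 := hEin.dvd' _ _ _ _ _ _ m h7 h7' ⟨hma, hma', fun k hkm => by
        have h8 := hk k hkm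
        rw [mem_union, mem_union] at h8
        have h9 : k ∉ o := fun h => by have := h4 k h; omega
        have h9' : k ∉ o' := fun h => by have := h4' k h; omega
        simpa only [h9, h9', or_false] using h8⟩ g fun n hn hn' => hg n hn (by omega)
      have h11 := h6 g fun n hn hn' => hg n (by omega) hn'
      have h11' := h6' g fun n hn hn' => hg n (by omega) hn'
      have h12 : zo + z - q - (zo' + z' - q') = (z - z') + (zo - q) - (zo' - q') := by ring
      rw [h12]
      exact dvd_sub (dvd_add h10 h11) h11'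
    · -- base points, high
      intro g hg
      have hma : m ∈ o := (mem_union.1 ha).resolve_left fun h => by
        have := mem_range.1 (h3 h); omega
      have hma' : m ∈ o' := (mem_union.1 ha').resolve_left fun h => by
        have := mem_range.1 (h3' h); omega
      obtain ⟨rfl, rfl, hC, rfl⟩ := h1.resolve_left fun h => by rw [h.1] at hma; simp at hma
      obtain ⟨rfl, rfl, hC', rfl⟩ := h1'.resolve_left fun h => by rw [h.1] at hma'; simp at hma'
      obtain ⟨m, rfl⟩ : ∃ m', m = rin + m' := ⟨m - rin, by omega⟩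
      have hag' : Agree m αo αo' := by
        refine ⟨(hOmem _ _).1 hma, (hOmem _ _).1 hma', fun k hkm => ?_⟩
        have h8 := hk (rin + k) (by omega)
        rw [mem_union, mem_union, hOmem, hOmem] at h8
        have h9 : rin + k ∉ α := fun h => by have := mem_range.1 (h3 h); omega
        have h9' : rin + k ∉ α' := fun h => by have := mem_range.1 (h3' h); omega
        simpa only [h9, h9', false_or] using h8
      have hχχ := hEout.col _ _ _ _ _ _ _ ho ho' hag'
      subst hχχ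
      have hg' : ∀ n, m < n → n < rout → g ∣ y' n := fun n hn hn' => hg _ (by omega) (by omega)
      have h10 := hEout.dvd' _ _ _ _ _ _ m ho ho' hag' g hg'
      have h11 : g ∣ (∑ i ∈ αo, y' i) - ∑ i ∈ αo', y' i := by
        have h12 : ∀ β : Finset ℕ, β ⊆ range rout →
            g ∣ (∑ i ∈ β, y' i) - ∑ i ∈ β.filter (· ≤ m), y' i := by
          intro β hβ
          rw [← sum_filter_add_sum_filter_not β (· ≤ m), add_sub_cancel_left]
          refine dvd_sum fun i hi => ?_
          rw [mem_filter] at hi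
          exact hg' i (by omega) (mem_range.1 (hβ hi.1))
        have h13 : αo.filter (· ≤ m) = αo'.filter (· ≤ m) := by
          ext k
          rw [mem_filter, mem_filter]
          constructor
          · rintro ⟨h, h'⟩
            refine ⟨?_, h'⟩
            rcases lt_or_eq_of_le h' with h' | rfl
            · exact (hag'.2.2 k h').1 h
            · exact hag'.2.1
          · rintro ⟨h, h'⟩
            refine ⟨?_, h'⟩
            rcases lt_or_eq_of_le h' with h' | rfl
            · exact (hag'.2.2 k h').2 h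
            · exact hag'.1
        have h14 := h12 αo (hEout.sub _ _ _ ho)
        have h15 := h12 αo' (hEout.sub _ _ _ ho')
        rw [← h13] at h15
        have h16 := dvd_sub h14 h15
        rwa [sub_sub_sub_cancel_right] at h16
      have h17 := h11.trans (sub_dvd_eval_sub _ _ p₁)
      have h12 : zo + Z χ - p₁.eval (∑ i ∈ αo, y' i) - (zo' + Z χ - p₁.eval (∑ i ∈ αo', y' i)) =
        (zo - zo') - (p₁.eval (∑ i ∈ αo, y' i) - p₁.eval (∑ i ∈ αo', y' i)) := by ring
      rw [h12]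
      exact dvd_sub h10 h17
  refine ⟨V, E, ?_, hTree, ?_⟩
  · refine (card_union_le _ _).trans (Nat.add_le_add (card_image_le.trans ?_)
      (card_image_le.trans ?_))
    · rw [card_product]
      exact Nat.mul_le_mul hVout hVin
    · rw [card_product, card_product, mul_assoc]
      exact Nat.mul_le_mul hVout (Nat.mul_le_mul hVin hSocard)
  intro Ψ
  -- the outer application
  obtain ⟨zo, αo, χ, ho, hχ, hcov⟩ := hcout (fun x u => Ψ (x + u))
  set x : A := ∑ i ∈ αo, y' i with hx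
  have hχu : ∀ u ∈ U, Ψ (zo + u) = extCol U χ u := by
    intro u hu
    rw [extCol_of_mem χ hu, ← hχ]
  have key : ∀ p ∈ 𝒜, ∀ d ∈ S, ∀ u ∈ U,
      Ψ (zo + (p.eval (x + d) - p.eval d - p₁.eval x) + u) = extCol U χ u := by
    intro p hp d hd u hu
    rw [← der_eval, extCol_of_mem χ hu]
    by_cases h0 : der p₁ p d = 0
    · rw [h0, ← hχ]; simp
    · have h1 := hcov (der p₁ p d) (mem_derFam.2 ⟨h0, p, hp, d, hd, rfl⟩)
      exact congrFun h1 ⟨u, hu⟩
  have h0S : (0 : A) ∈ S := mem_image.2 ⟨∅, by simp, by simp⟩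
  by_cases hC : Cov 𝒜 y Ein (extCol U χ)
  · left
    obtain ⟨z, α, c, hc1, hc2, hc3⟩ := hC
    have hzV := hEin.mem _ _ _ hc1
    refine ⟨zo + z, α, c, ⟨zo, αo, χ, z, α, c, ∅, 0, ho, by simp, Or.inl ⟨rfl, rfl⟩, Or.inl hc1⟩,
      ?_, fun p hp => ?_⟩
    · rw [hχu z (hzU z hzV), hc2]
    · rw [add_assoc, hχu _ (hzU' z hzV p hp _ (hSmem α (hEin.sub _ _ _ hc1))), hc3 p hp]
  · have hzV := hZ χ hC
    have hE1 : ∀ i, (zo + Z χ - p₁.eval x, Al χ i ∪ O αo, Co χ i) ∈ E := fun i =>
      ⟨zo, αo, χ, Z χ, Al χ i, Co χ i, O αo, p₁.eval x, ho, rfl, Or.inr ⟨rfl, rfl, hC, rfl⟩,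
        Or.inl (hEd χ hC i).1⟩
    have hE0 : (zo + Z χ - p₁.eval x, O αo, extCol U χ (Z χ)) ∈ E :=
      ⟨zo, αo, χ, Z χ, ∅, extCol U χ (Z χ), O αo, p₁.eval x, ho, by simp,
        Or.inr ⟨rfl, rfl, hC, rfl⟩, Or.inr ⟨rfl, rfl, rfl⟩⟩
    have hcol : ∀ i, Co χ i ≠ extCol U χ (Z χ) := by
      intro i hi
      apply hC
      refine ⟨Z χ, Al χ i, Co χ i, (hEd χ hC i).1, hi.symm, (hEd χ hC i).2⟩
    right
    refine ⟨zo + Z χ - p₁.eval x, hTree.mem _ _ _ hE0, hTree.dvd _ _ _ hE0,
      Fin.cons (O αo) (fun i => Al χ i ∪ O αo), Fin.cons (extCol U χ (Z χ)) (Co χ), ?_, ?_⟩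
    · intro i j hij
      induction i using Fin.cases with
      | zero =>
        induction j using Fin.cases with
        | zero => rfl
        | succ j =>
          simp only [Fin.cons_zero, Fin.cons_succ] at hij
          exact absurd hij.symm (hcol j)
      | succ i =>
        induction j using Fin.cases with
        | zero =>
          simp only [Fin.cons_zero, Fin.cons_succ] at hij
          exact absurd hij (hcol i)
        | succ j =>
          simp only [Fin.cons_succ] at hij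
          rw [hCo χ hC hij]
    · intro i
      induction i using Fin.cases with
      | zero =>
        simp only [Fin.cons_zero]
        refine ⟨hE0, fun p hp => ?_⟩
        rw [hOsum]
        have h1 := key p hp 0 h0S (Z χ) (hzU _ hzV)
        rw [add_zero, h𝒜.eval p hp] at h1
        rw [← h1]
        congr 1
        ring
      | succ i =>
        simp only [Fin.cons_succ]
        refine ⟨hE1 i, fun p hp => ?_⟩
        have hsub := hEin.sub _ _ _ (hEd χ hC i).1
        have hdisj : Disjoint (Al χ i) (O αo) := by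
          rw [disjoint_left]
          intro j hj hj'
          have h1 := mem_range.1 (hsub hj)
          have h2 := hOge _ j hj'
          omega
        rw [sum_union hdisj, hOsum]
        set d : A := ∑ j ∈ Al χ i, y j with hd
        have hdS : d ∈ S := hSmem _ hsub
        have h1 := key p hp d hdS (Z χ + p.eval d) (hzU' _ hzV p hp d hdS)
        rw [(hEd χ hC i).2 p hp] at h1
        rw [← h1]
        congr 1
        rw [add_comm d x]
        ring

theorem tipf_all {K N D : ℕ} {w : Fin (D + 1) → ℕ}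
    (ih : ∀ w', WRel D w' w → ∀ K N, ∃ r M, TIPR A K N D w' r M) (t : ℕ) :
    ∃ r M, TIPF A K N D w t r M := by
  induction t with
  | zero =>
    refine ⟨0, 1, fun 𝒜 _ _ y κ _ _ _ => ⟨{0}, ∅, by simp, ⟨?_, ?_, ?_, ?_, ?_, ?_⟩,
      fun Ψ => Or.inr ⟨0, by simp, fun g _ => dvd_zero g,
      fun i => i.elim0, fun i => i.elim0, fun i => i.elim0, fun i => i.elim0⟩⟩⟩ <;>
    simp
  | succ t iht =>
    obtain ⟨r, M, h⟩ := iht
    exact tipf_step ih h

theorem tipr_all (D : ℕ) (w : Fin (D + 1) → ℕ) : ∀ K N, ∃ r M, TIPR A K N D w r M := by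
  induction w using (WRel.wf D).induction with
  | _ w ih =>
    intro K N
    obtain ⟨r, M, h⟩ := tipf_all (K := K) (N := N) ih (K + 1)
    refine ⟨max r K, max M 1, fun 𝒜 h𝒜 y κ _ _ hκ => ?_⟩
    rcases 𝒜.eq_empty_or_nonempty with rfl | hne
    · obtain ⟨f, hf⟩ : ∃ f : κ → ℕ, Function.Injective f ∧ ∀ c, f c < K := by
        have e := Finite.equivFin κ
        refine ⟨fun c => (e c : ℕ), ?_, fun c => (e c).2.trans_le hκ⟩
        exact Fin.val_injective.comp e.injective
      refine ⟨{0}, {e | ∃ c, e = (0, {f c}, c)}, by simp, ⟨?_, ?_, ?_, ?_, ?_, ?_⟩, fun Ψ => ?_⟩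
      · rintro z α c ⟨c', h⟩
        rw [Prod.mk.injEq] at h
        rw [h.1]; simp
      · rintro z α c ⟨c', h⟩
        rw [Prod.mk.injEq, Prod.mk.injEq] at h
        rw [h.2.1]; simp
      · rintro z α c ⟨c', h⟩
        rw [Prod.mk.injEq, Prod.mk.injEq] at h
        rw [h.2.1]
        intro j hj
        rw [mem_singleton] at hj
        rw [hj, mem_range]
        exact (hf.2 c').trans_le (le_max_right _ _)
      · rintro z α c ⟨c', h⟩ g -
        rw [Prod.mk.injEq] at h
        rw [h.1]; exact dvd_zero g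
      · rintro z α c z' α' c' m ⟨c1, h⟩ ⟨c2, h'⟩ hag
        rw [Prod.mk.injEq, Prod.mk.injEq] at h h'
        obtain ⟨rfl, rfl, rfl⟩ := h
        obtain ⟨rfl, rfl, rfl⟩ := h'
        have h1 := mem_singleton.1 hag.1
        have h2 := mem_singleton.1 hag.2.1
        exact hf.1 (h1.symm.trans h2)
      · rintro z α c z' α' c' m ⟨c1, h⟩ ⟨c2, h'⟩ hag g -
        rw [Prod.mk.injEq] at h h'
        rw [h.1, h'.1, sub_zero]
        exact dvd_zero g
      · exact ⟨0, {f (Ψ 0)}, Ψ 0, ⟨Ψ 0, rfl⟩, rfl, by simp⟩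
    · obtain ⟨V, E, hV, hE, hcov⟩ := h 𝒜 h𝒜 hne y κ hκ
      refine ⟨V, E, hV.trans (le_max_left _ _), hE.mono (le_max_left _ _), fun Ψ => ?_⟩
      rcases hcov Ψ with hsol | ⟨z, hz, hz', α, c, hc, -⟩
      · exact hsol
      · exfalso
        have h1 := Nat.card_le_card_of_injective c hc
        rw [Nat.card_fin] at h1
        omega

/-- Uniform tree version of the polynomial van der Waerden theorem along finite sums. -/
theorem tree_vdw (K N D : ℕ) : ∃ r M : ℕ, ∀ 𝒜 : Finset A[X], 𝒜.card ≤ N →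
    (∀ p ∈ 𝒜, p.eval 0 = 0) → (∀ p ∈ 𝒜, p.natDegree ≤ D) →
      ∀ (y : ℕ → A) (κ : Type) [Finite κ] [Nonempty κ], Nat.card κ ≤ K →
        ∃ (V : Finset A) (E : Set (A × Finset ℕ × κ)), V.card ≤ M ∧ Tree y r V E ∧
          ∀ Ψ : A → κ, Cov 𝒜 y E Ψ := by
  classical
  obtain ⟨r, M, h⟩ := tipr_all (A := A) D (fun _ => N) K N
  refine ⟨r, M, fun 𝒜 hN h0 hD y κ _ _ hκ => ?_⟩
  have hadm : Adm N D (fun _ => N) (𝒜.erase 0) := by
    refine ⟨(card_le_card (erase_subset _ _)).trans hN, fun p hp => h0 p (mem_of_mem_erase hp),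
      fun p hp => hD p (mem_of_mem_erase hp), fun p hp => ne_of_mem_erase hp, fun i => ?_⟩
    unfold TH956.wt
    exact card_image_le.trans ((card_le_card (filter_subset _ _)).trans
      ((card_le_card (erase_subset _ _)).trans hN))
  obtain ⟨V, E, hV, hE, hcov⟩ := h _ hadm y κ hκ
  refine ⟨V, E, hV, hE, fun Ψ => ?_⟩
  obtain ⟨z, α, c, h1, h2, h3⟩ := hcov Ψ
  refine ⟨z, α, c, h1, h2, fun p hp => ?_⟩
  by_cases hp0 : p = 0
  · subst hp0; simpa using h2
  · exact h3 p (mem_erase.2 ⟨hp0, hp⟩)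

end

end Pool.Agent.TH956
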